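import Pool.Agent.L5helper55.OC.Comb

/-!
# Clone homomorphisms to the clone of projections
-/

set_option autoImplicit false
set_option linter.unusedSectionVars false

namespace Pool.Agent.L5helper55.OC

/-- `Ix n f i` says that the operation `f` of arity `n + 1` is in the clone and is mapped to
the projection to the coordinate `i`. -/
structure IsHom1 (Ix : ∀ n : ℕ, ((Fin (n + 1) → ℕ) → ℕ) → Fin (n + 1) → Prop) : Prop where
  proj : ∀ n i, Ix n (fun x => x i) i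
  comp : ∀ m n f i (g : Fin (m + 1) → (Fin (n + 1) → ℕ) → ℕ) (k : Fin (m + 1) → Fin (n + 1)),
    Ix m f i → (∀ j, Ix n (g j) (k j)) → Ix n (fun x => f fun j => g j x) (k i)
  uniq : ∀ n f i j, Ix n f i → Ix n f j → i = j
  /-- oligomorphic -/
  olig : ∀ n, ∃ S : Set (Fin n → ℕ), S.Finite ∧ ∀ x : Fin n → ℕ, ∃ x' ∈ S, ∃ u v, Ix 0 u 0 ∧ Ix 0 v 0 ∧
    (∀ z, u (fun _ => v fun _ => z) = z) ∧ (∀ z, v (fun _ => u fun _ => z) = z) ∧
      ∀ i, u (fun _ => x' i) = x i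
  /-- discontinuous -/
  disc : ∃ n f i, Ix n f i ∧ ∀ s : Finset (Fin (n + 1) → ℕ), ∃ g j, j ≠ i ∧ Ix n g j ∧
    ∀ x ∈ s, g x = f x

/-- The binary operation coded by `y`. -/
def o2 (y : ℕ → ℕ) (x : Fin 2 → ℕ) : ℕ := y (Nat.pair (x 0) (x 1))

/-- The ternary operation coded by `u`. -/
def o3 (u : ℕ → ℕ) (x : Fin 3 → ℕ) : ℕ := u (Nat.pair (x 0) (Nat.pair (x 1) (x 2)))

section

variable {Ix : ∀ n : ℕ, ((Fin (n + 1) → ℕ) → ℕ) → Fin (n + 1) → Prop} (hI : IsHom1 Ix)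

/-- `y` codes a binary operation in the clone. -/
def Q2 (Ix : ∀ n : ℕ, ((Fin (n + 1) → ℕ) → ℕ) → Fin (n + 1) → Prop) (y : ℕ → ℕ) : Prop :=
  ∃ i, Ix 1 (o2 y) i

/-- `u` codes a ternary operation in the clone, which is mapped to the first projection. -/
def M3 (Ix : ∀ n : ℕ, ((Fin (n + 1) → ℕ) → ℕ) → Fin (n + 1) → Prop) (u : ℕ → ℕ) : Prop :=
  Ix 2 (o3 u) 0

open Classical in
/-- The value of the homomorphism. -/
noncomputable def xi (Ix : ∀ n : ℕ, ((Fin (n + 1) → ℕ) → ℕ) → Fin (n + 1) → Prop) (y : ℕ → ℕ) :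
    Bool := decide (Ix 1 (o2 y) 1)

/-- There is a move from `t` to `t'` at level `n`. -/
def Rel (Ix : ∀ n : ℕ, ((Fin (n + 1) → ℕ) → ℕ) → Fin (n + 1) → Prop) (n : ℕ) (t t' : ℕ → ℕ) :
    Prop := ∃ u, M3 Ix u ∧ ∀ l < n ^ 2, u (Nat.pair (t l) l) = t' l

/-- `t` is terminal at level `n`. -/
def Term (Ix : ∀ n : ℕ, ((Fin (n + 1) → ℕ) → ℕ) → Fin (n + 1) → Prop) (n : ℕ) (t : ℕ → ℕ) :
    Prop := Q2 Ix t ∧ ∀ t', Q2 Ix t' → Rel Ix n t t' → Rel Ix n t' t

/-- The indices as Booleans. -/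
def ib (b : Bool) : Fin 2 := if b then 1 else 0

include hI

theorem q2_iff {y : ℕ → ℕ} : Q2 Ix y ↔ Ix 1 (o2 y) (ib (xi Ix y)) := by
  classical
  constructor
  · rintro ⟨i, hi⟩
    by_cases h : Ix 1 (o2 y) 1
    · have h1 : xi Ix y = true := decide_eq_true h
      rw [h1]
      exact h
    · have h1 : xi Ix y = false := decide_eq_false h
      rw [h1]
      have h2 : i = 0 := by
        fin_cases i
        · rfl
        · exact absurd hi h
      rw [h2] at hi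
      exact hi
  · intro h
    exact ⟨_, h⟩

theorem xi_eq {y : ℕ → ℕ} {b : Bool} (h : Ix 1 (o2 y) (ib b)) : xi Ix y = b := by
  classical
  have h1 := (q2_iff hI).1 ⟨_, h⟩
  have h2 := hI.uniq _ _ _ _ h1 h
  revert h2
  cases xi Ix y <;> cases b <;> simp [ib]

/-- Applying a move. -/
theorem app3 {u y : ℕ → ℕ} (hu : M3 Ix u) {i : Fin 2} (hy : Ix 1 (o2 y) i) :
    Ix 1 (o2 fun l => u (Nat.pair (y l) l)) i := by
  have h := hI.comp 2 1 (o3 u) 0 ![o2 y, fun x => x 0, fun x => x 1] ![i, 0, 1] hu (by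
    intro j
    fin_cases j
    · exact hy
    · exact hI.proj 1 0
    · exact hI.proj 1 1)
  exact h

theorem swap2 {y : ℕ → ℕ} {i : Fin 2} (hy : Ix 1 (o2 y) i) :
    Ix 1 (o2 fun l => y (sw true l)) (![1, 0] i) := by
  have h := hI.comp 1 1 (o2 y) i ![fun x => x 1, fun x => x 0] ![1, 0] hy (by
    intro j
    fin_cases j
    · exact hI.proj 1 1
    · exact hI.proj 1 0)
  have e : (fun x : Fin 2 → ℕ => o2 y fun j => (![fun x => x 1, fun x => x 0] :
      Fin 2 → (Fin 2 → ℕ) → ℕ) j x) = o2 fun l => y (sw true l) := by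
    funext x
    simp [o2, sw]
  rw [← e]
  exact h

theorem q2_app {u y : ℕ → ℕ} (hu : M3 Ix u) (hy : Q2 Ix y) (ε : Bool) :
    Q2 Ix (fun l => u (Nat.pair (y (sw ε l)) l)) ∧
      xi Ix (fun l => u (Nat.pair (y (sw ε l)) l)) = (xi Ix y).xor ε := by
  have h1 := (q2_iff hI).1 hy
  cases ε with
  | false =>
    have h2 := app3 hI hu h1
    refine ⟨⟨_, h2⟩, ?_⟩
    rw [Bool.xor_false]
    exact xi_eq hI h2
  | true =>
    have h2 := swap2 hI h1
    have h3 := app3 hI hu h2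
    refine ⟨⟨_, h3⟩, ?_⟩
    have e : (![1, 0] : Fin 2 → Fin 2) (ib (xi Ix y)) = ib ((xi Ix y).xor true) := by
      cases xi Ix y <;> rfl
    rw [e] at h3
    exact xi_eq hI h3

theorem q2_swap {y : ℕ → ℕ} (hy : Q2 Ix y) : Q2 Ix fun l => y (sw true l) := by
  obtain ⟨i, hi⟩ := hy
  exact ⟨_, swap2 hI hi⟩

theorem m3_id : M3 Ix fun q => q.unpair.1 := by
  have h := hI.proj 2 0
  have e : (fun x : Fin 3 → ℕ => x 0) = o3 fun q => q.unpair.1 := by
    funext x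
    simp [o3]
  rw [e] at h
  exact h

theorem m3_comp {u u' : ℕ → ℕ} (hu : M3 Ix u) (hu' : M3 Ix u') :
    M3 Ix fun q => u' (Nat.pair (u q) q.unpair.2) := by
  have h := hI.comp 2 2 (o3 u') 0 ![o3 u, fun x => x 1, fun x => x 2] ![0, 1, 2] hu' (by
    intro j
    fin_cases j
    · exact hu
    · exact hI.proj 2 1
    · exact hI.proj 2 2)
  have e : (fun x : Fin 3 → ℕ => o3 u' fun j => (![o3 u, fun x => x 1, fun x => x 2] :
      Fin 3 → (Fin 3 → ℕ) → ℕ) j x) = o3 fun q => u' (Nat.pair (u q) q.unpair.2) := by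
    funext x
    simp [o3]
  rw [e] at h
  exact h

theorem m3_swap {u : ℕ → ℕ} (hu : M3 Ix u) :
    M3 Ix fun q => u (Nat.pair q.unpair.1 (sw true q.unpair.2)) := by
  have h := hI.comp 2 2 (o3 u) 0 ![fun x => x 0, fun x => x 2, fun x => x 1] ![0, 2, 1] hu (by
    intro j
    fin_cases j
    · exact hI.proj 2 0
    · exact hI.proj 2 2
    · exact hI.proj 2 1)
  have e : (fun x : Fin 3 → ℕ => o3 u fun j => (![fun x => x 0, fun x => x 2, fun x => x 1] :
      Fin 3 → (Fin 3 → ℕ) → ℕ) j x) =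
        o3 fun q => u (Nat.pair q.unpair.1 (sw true q.unpair.2)) := by
    funext x
    simp [o3, sw]
  rw [e] at h
  exact h

/-- Unary members. -/
theorem m3_unary {u : (Fin 1 → ℕ) → ℕ} (hu : Ix 0 u 0) : M3 Ix fun q => u fun _ => q.unpair.1 := by
  have h := hI.comp 0 2 u 0 ![fun x => x 0] ![0] hu (by
    intro j
    fin_cases j
    exact hI.proj 2 0)
  have e : (fun x : Fin 3 → ℕ => u fun j => (![fun x => x 0] :
      Fin 1 → (Fin 3 → ℕ) → ℕ) j x) = o3 fun q => u fun _ => q.unpair.1 := by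
    funext x
    simp only [o3, Nat.unpair_pair]
    congr 1
    funext j
    fin_cases j
    rfl
  rw [e] at h
  exact h

theorem rel_refl (n : ℕ) (t : ℕ → ℕ) : Rel Ix n t t :=
  ⟨_, m3_id hI, fun l _ => by simp⟩

theorem rel_trans {n : ℕ} {t t' t'' : ℕ → ℕ} (h : Rel Ix n t t') (h' : Rel Ix n t' t'') :
    Rel Ix n t t'' := by
  obtain ⟨u, hu, h1⟩ := h
  obtain ⟨u', hu', h2⟩ := h'
  refine ⟨_, m3_comp hI hu hu', fun l hl => ?_⟩
  simp only [Nat.unpair_pair]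
  rw [h1 l hl, h2 l hl]

theorem rel_mono {n n' : ℕ} (h : n ≤ n') {t t' : ℕ → ℕ} (h' : Rel Ix n' t t') :
    Rel Ix n t t' := by
  obtain ⟨u, hu, h1⟩ := h'
  exact ⟨u, hu, fun l hl => h1 l (hl.trans_le (Nat.pow_le_pow_left h 2))⟩

theorem rel_swap {n : ℕ} {t t' : ℕ → ℕ} (h : Rel Ix n t t') :
    Rel Ix n (fun l => t (sw true l)) fun l => t' (sw true l) := by
  obtain ⟨u, hu, h1⟩ := h
  refine ⟨_, m3_swap hI hu, fun l hl => ?_⟩
  simp only [Nat.unpair_pair]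
  exact h1 _ (sw_lt hl)

/-- Binary discontinuity. -/
theorem disc2 : ∃ g, Ix 1 (o2 g) 0 ∧ ∀ s : Finset ℕ, ∃ g', Ix 1 (o2 g') 1 ∧
    ∀ l ∈ s, g' l = g l := by
  classical
  obtain ⟨n, f, i, hf, hd⟩ := hI.disc
  have key : ∀ f : (Fin (n + 1) → ℕ) → ℕ, ∀ k, Ix n f k →
      Ix 1 (o2 fun l => f fun j => if j = i then l.unpair.1 else l.unpair.2)
        (if k = i then 0 else 1) := by
    intro f k hf
    have h := hI.comp n 1 f k (fun j => if j = i then fun x => x 0 else fun x => x 1)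
      (fun j => if j = i then 0 else 1) hf (by
        intro j
        by_cases hj : j = i
        · simp only [if_pos hj]
          exact hI.proj 1 0
        · simp only [if_neg hj]
          exact hI.proj 1 1)
    have e : (fun x : Fin 2 → ℕ => f fun j => (if j = i then fun x => x 0 else fun x => x 1 :
        (Fin 2 → ℕ) → ℕ) x) =
          o2 fun l => f fun j => if j = i then l.unpair.1 else l.unpair.2 := by
      funext x
      simp only [o2, Nat.unpair_pair]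
      congr 1
      funext j
      by_cases hj : j = i
      · simp [hj]
      · simp [hj]
    rw [e] at h
    exact h
  refine ⟨fun l => f fun j => if j = i then l.unpair.1 else l.unpair.2, ?_, fun s => ?_⟩
  · have h := key f i hf
    rw [if_pos rfl] at h
    exact h
  · obtain ⟨g, j, hj, hg, hs⟩ := hd (s.image fun l => fun j => if j = i then l.unpair.1
      else l.unpair.2)
    refine ⟨fun l => g fun j => if j = i then l.unpair.1 else l.unpair.2, ?_, fun l hl => ?_⟩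
    · have h := key g j hg
      rw [if_neg hj] at h
      exact h
    · exact hs _ (Finset.mem_image_of_mem _ hl)

theorem rel_sw_self {n : ℕ} {t : ℕ → ℕ} (ht : Term Ix n t) :
    Rel Ix n (fun l => t (sw true l)) t := by
  classical
  obtain ⟨g, hg, hd⟩ := disc2 hI
  obtain ⟨g', hg', hs⟩ := hd ((Finset.range (n ^ 2)).image fun l =>
    Nat.pair (t l) (t (sw true l)))
  obtain ⟨⟨i, hi⟩, hT⟩ := ht
  -- the ternary operation `t (x 1, x 2)`
  have ht3 : Ix 2 (fun x : Fin 3 → ℕ => t (Nat.pair (x 1) (x 2))) (![1, 2] i) := by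
    have h := hI.comp 1 2 (o2 t) i ![fun x => x 1, fun x => x 2] ![1, 2] hi (by
      intro j
      fin_cases j
      · exact hI.proj 2 1
      · exact hI.proj 2 2)
    exact h
  have ht3' : Ix 2 (fun x : Fin 3 → ℕ => t (Nat.pair (x 2) (x 1))) (![2, 1] i) := by
    have h := hI.comp 1 2 (o2 t) i ![fun x => x 2, fun x => x 1] ![2, 1] hi (by
      intro j
      fin_cases j
      · exact hI.proj 2 2
      · exact hI.proj 2 1)
    exact h
  have hv : Q2 Ix fun l => g (Nat.pair (t l) (t (sw true l))) := by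
    have h := hI.comp 1 1 (o2 g) 0 ![o2 t, o2 fun l => t (sw true l)] ![i, ![1, 0] i] hg (by
      intro j
      fin_cases j
      · exact hi
      · exact swap2 hI hi)
    exact ⟨_, h⟩
  have h1 : Rel Ix n t fun l => g (Nat.pair (t l) (t (sw true l))) := by
    refine ⟨fun q => g (Nat.pair q.unpair.1 (t (sw true q.unpair.2))), ?_, fun l _ => by simp⟩
    have h := hI.comp 1 2 (o2 g) 0 ![fun x => x 0, fun x => t (Nat.pair (x 2) (x 1))]
      ![0, ![2, 1] i] hg (by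
        intro j
        fin_cases j
        · exact hI.proj 2 0
        · exact ht3')
    have e : (fun x : Fin 3 → ℕ => o2 g fun j => (![fun x => x 0,
        fun x => t (Nat.pair (x 2) (x 1))] : Fin 2 → (Fin 3 → ℕ) → ℕ) j x) =
          o3 fun q => g (Nat.pair q.unpair.1 (t (sw true q.unpair.2))) := by
      funext x
      simp [o2, o3, sw]
    rw [e] at h
    exact h
  have h2 : Rel Ix n (fun l => t (sw true l)) fun l => g (Nat.pair (t l) (t (sw true l))) := by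
    refine ⟨fun q => g' (Nat.pair (t q.unpair.2) q.unpair.1), ?_, fun l hl => ?_⟩
    · have h := hI.comp 1 2 (o2 g') 1 ![fun x => t (Nat.pair (x 1) (x 2)), fun x => x 0]
        ![![1, 2] i, 0] hg' (by
          intro j
          fin_cases j
          · exact ht3
          · exact hI.proj 2 0)
      have e : (fun x : Fin 3 → ℕ => o2 g' fun j => (![fun x => t (Nat.pair (x 1) (x 2)),
          fun x => x 0] : Fin 2 → (Fin 3 → ℕ) → ℕ) j x) =
            o3 fun q => g' (Nat.pair (t q.unpair.2) q.unpair.1) := by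
        funext x
        simp [o2, o3]
      rw [e] at h
      exact h
    · simp only [Nat.unpair_pair]
      exact hs _ (Finset.mem_image_of_mem _ (Finset.mem_range.2 hl))
  exact rel_trans hI h2 (hT _ hv h1)

/-- There are finitely many classes. -/
theorem fin_cls (N : ℕ) : ∃ S : Finset (ℕ → ℕ), ∀ t, Q2 Ix t → ∃ s ∈ S, Rel Ix N t s ∧
    Rel Ix N s t := by
  classical
  obtain ⟨S, hS, h⟩ := hI.olig (N ^ 2)
  let pr : (ℕ → ℕ) → (Fin (N ^ 2) → ℕ) → Prop := fun t x' => ∃ u v, Ix 0 u 0 ∧ Ix 0 v 0 ∧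
    (∀ z, u (fun _ => v fun _ => z) = z) ∧ (∀ z, v (fun _ => u fun _ => z) = z) ∧
      ∀ i : Fin (N ^ 2), u (fun _ => x' i) = t i
  let ch : (Fin (N ^ 2) → ℕ) → ℕ → ℕ := fun x' => if h : ∃ t, Q2 Ix t ∧ pr t x' then h.choose
    else 0
  refine ⟨hS.toFinset.image ch, fun t ht => ?_⟩
  obtain ⟨x', hx', u, v, hu, hv, huv, hvu, hx⟩ := h fun i => t i
  have hex : ∃ t, Q2 Ix t ∧ pr t x' := ⟨t, ht, u, v, hu, hv, huv, hvu, hx⟩
  obtain ⟨-, u', v', hu', hv', huv', hvu', hx2⟩ := hex.choose_spec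
  have hch : ch x' = hex.choose := dif_pos hex
  refine ⟨ch x', Finset.mem_image_of_mem _ (hS.mem_toFinset.2 hx'), ?_, ?_⟩
  · rw [hch]
    refine ⟨_, m3_comp hI (m3_unary hI hv) (m3_unary hI hu'), fun l hl => ?_⟩
    simp only [Nat.unpair_pair]
    have e1 := hx ⟨l, hl⟩
    have e2 := hx2 ⟨l, hl⟩
    simp only at e1 e2
    rw [← e1, hvu, e2]
  · rw [hch]
    refine ⟨_, m3_comp hI (m3_unary hI hv') (m3_unary hI hu), fun l hl => ?_⟩
    simp only [Nat.unpair_pair]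
    have e1 := hx ⟨l, hl⟩
    have e2 := hx2 ⟨l, hl⟩
    simp only at e1 e2
    rw [← e2, hvu', e1]

theorem exists_term (N : ℕ) {t : ℕ → ℕ} (ht : Q2 Ix t) : ∃ t', Rel Ix N t t' ∧ Term Ix N t' := by
  classical
  obtain ⟨S, hS⟩ := fin_cls hI N
  let cnt : (ℕ → ℕ) → ℕ := fun t => (S.filter fun s => Rel Ix N t s).card
  have hex : ∃ k, ∃ t', Q2 Ix t' ∧ Rel Ix N t t' ∧ cnt t' = k :=
    ⟨_, t, ht, rel_refl hI N t, rfl⟩
  obtain ⟨t', h1, h2, h3⟩ := Nat.find_spec hex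
  refine ⟨t', h2, h1, fun t'' h4 h5 => ?_⟩
  have h6 : S.filter (fun s => Rel Ix N t'' s) ⊆ S.filter fun s => Rel Ix N t' s := by
    intro s hs
    rw [Finset.mem_filter] at hs ⊢
    exact ⟨hs.1, rel_trans hI h5 hs.2⟩
  have h7 : cnt t' ≤ cnt t'' := by
    rw [h3]
    exact Nat.find_min' hex ⟨t'', h4, rel_trans hI h2 h5, rfl⟩
  have h8 := Finset.eq_of_subset_of_card_le h6 h7
  obtain ⟨s, hs, h9, h10⟩ := hS t' h1
  have h11 : s ∈ S.filter fun s => Rel Ix N t' s := Finset.mem_filter.2 ⟨hs, h9⟩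
  rw [← h8, Finset.mem_filter] at h11
  exact rel_trans hI h11.2 h10

/-- The sequences that are used for the datum. -/
def YY (Ix : ∀ n : ℕ, ((Fin (n + 1) → ℕ) → ℕ) → Fin (n + 1) → Prop) (z : ℕ → ℕ) : Prop :=
  (z 0 = 0 ∧ M3 Ix fun l => z (l + 1)) ∨ ∃ n, z 0 = n + 1 ∧ Term Ix n fun l => z (l + 1)

omit hI in
theorem yy_mv {u : ℕ → ℕ} (h : M3 Ix u) : YY Ix fun l => Nat.casesOn l 0 u := Or.inl ⟨rfl, h⟩

omit hI in
theorem yy_st {n : ℕ} {t : ℕ → ℕ} (h : Term Ix n t) : YY Ix fun l => Nat.casesOn l (n + 1) t :=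
  Or.inr ⟨n, rfl, h⟩

/-- The datum `d` is a dense sequence in the set `YY`. -/
def Dns (Ix : ∀ n : ℕ, ((Fin (n + 1) → ℕ) → ℕ) → Fin (n + 1) → Prop) (d : ℕ → ℕ) : Prop :=
  (∀ i, YY Ix fun l => d (Nat.pair i l)) ∧
    ∀ z, YY Ix z → ∀ N, ∃ i, ∀ l < N, d (Nat.pair i l) = z l

omit hI in
theorem dns_mv {d : ℕ → ℕ} (hd : Dns Ix d) {j : ℕ} (h : tg d j = 0) : M3 Ix (vl d j) := by
  rcases hd.1 j with h1 | ⟨n, h1, -⟩
  · exact h1.2
  · exfalso
    have h2 : tg d j = n + 1 := h1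
    omega

omit hI in
theorem dns_st {d : ℕ → ℕ} (hd : Dns Ix d) {j n : ℕ} (h : tg d j = n + 1) :
    Term Ix n (vl d j) := by
  rcases hd.1 j with h1 | ⟨n', h1, h2⟩
  · exfalso
    have h2 : tg d j = 0 := h1.1
    omega
  · have h3 : tg d j = n' + 1 := h1
    obtain rfl : n = n' := by omega
    exact h2

omit hI in
theorem exists_mv {d : ℕ → ℕ} (hd : Dns Ix d) {u : ℕ → ℕ} (hu : M3 Ix u) (N : ℕ) :
    ∃ j, tg d j = 0 ∧ ∀ l < N, vl d j l = u l := by
  obtain ⟨j, hj⟩ := hd.2 _ (yy_mv hu) (N + 1)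
  exact ⟨j, hj 0 (Nat.succ_pos N), fun l hl => hj (l + 1) (by omega)⟩

omit hI in
theorem exists_st {d : ℕ → ℕ} (hd : Dns Ix d) {n : ℕ} {t : ℕ → ℕ} (ht : Term Ix n t) (N : ℕ) :
    ∃ j, tg d j = n + 1 ∧ ∀ l < N, vl d j l = t l := by
  obtain ⟨j, hj⟩ := hd.2 _ (yy_st ht) (N + 1)
  exact ⟨j, hj 0 (Nat.succ_pos N), fun l hl => hj (l + 1) (by omega)⟩

theorem suit_of {d : ℕ → ℕ} (hd : Dns Ix d) : Suit d := by
  rintro ⟨n, i⟩ hal
  have hT : Term Ix n (vl d i) := dns_st hd hal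
  obtain ⟨t, h1, h2⟩ := exists_term hI (n + 1) hT.1
  have h3 : Rel Ix n t (vl d i) := hT.2 _ h2.1 (rel_mono hI (Nat.le_succ n) h1)
  have h4 : Rel Ix n (fun l => t (sw true l)) (vl d i) :=
    rel_trans hI (rel_swap hI h3) (rel_sw_self hI hT)
  obtain ⟨i', g1, g2⟩ := exists_st hd h2 (n ^ 2)
  obtain ⟨u₀, hu₀, h5⟩ := h3
  obtain ⟨u₁, hu₁, h6⟩ := h4
  -- bounds
  obtain ⟨B, hB⟩ : ∃ B, ∀ ε, ∀ l < n ^ 2, Nat.pair (t (sw ε l)) l < B := by
    refine ⟨(∑ l ∈ Finset.range (n ^ 2), (Nat.pair (t (sw false l)) l +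
      Nat.pair (t (sw true l)) l)) + 1, fun ε l hl => ?_⟩
    have h7 := Finset.single_le_sum (f := fun l => Nat.pair (t (sw false l)) l +
      Nat.pair (t (sw true l)) l) (fun _ _ => Nat.zero_le _) (Finset.mem_range.2 hl)
    cases ε <;> omega
  obtain ⟨j₀, g3, g4⟩ := exists_mv hd hu₀ B
  obtain ⟨j₁, g5, g6⟩ := exists_mv hd hu₁ B
  refine ⟨mv j₀ i' false, mv j₁ i' true, ⟨?_, ?_, fun l hl => ?_⟩, ⟨?_, ?_, fun l hl => ?_⟩,
    ?_, me_mv _ _ _, me_mv _ _ _⟩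
  · rw [mi_mv]; exact g1
  · rw [mj_mv]; exact g3
  · simp only at hl ⊢
    unfold ph
    rw [mi_mv, mj_mv, me_mv, g2 _ (sw_lt hl), g4 _ (hB false l hl)]
    exact h5 l hl
  · rw [mi_mv]; exact g1
  · rw [mj_mv]; exact g5
  · simp only at hl ⊢
    unfold ph
    rw [mi_mv, mj_mv, me_mv, g2 _ (sw_lt hl), g6 _ (hB true l hl)]
    exact h6 l hl
  · rw [mi_mv, mi_mv]

theorem exists_start {d : ℕ → ℕ} (hd : Dns Ix d) : ∃ i, Al d (0, i) := by
  have h : Term Ix 0 fun l => l.unpair.1 := by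
    refine ⟨⟨0, ?_⟩, fun t' _ _ => ⟨_, m3_id hI, fun l hl => by simp at hl⟩⟩
    have h1 := hI.proj 1 0
    have e : (fun x : Fin 2 → ℕ => x 0) = o2 fun l => l.unpair.1 := by
      funext x
      simp [o2]
    rw [e] at h1
    exact h1
  obtain ⟨i, h1, -⟩ := exists_st hd h 0
  exact ⟨i, h1⟩

theorem sg_of {d : ℕ → ℕ} (hd : Dns Ix d) : Sg d (Q2 Ix) (xi Ix) := by
  intro m hm y hy
  exact q2_app hI (dns_mv hd hm) hy (me m)

end

end Pool.Agent.L5helper55.OC
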