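import Mathlib

/-!
# Reading a path from a sequence of bits
-/

set_option autoImplicit false
set_option linter.unusedSectionVars false

namespace Pool.Agent.L5helper55.OC

/-- Swap of the two arguments (if `ε` is true). -/
def sw (ε : Bool) (l : ℕ) : ℕ := if ε then Nat.pair l.unpair.2 l.unpair.1 else l

theorem sw_sw (ε : Bool) (l : ℕ) : sw ε (sw ε l) = l := by
  cases ε <;> simp [sw]

theorem lt_sq_iff {a b N : ℕ} : Nat.pair a b < N ^ 2 ↔ a < N ∧ b < N := by
  constructor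
  · intro h
    have h1 := Nat.max_sq_add_min_le_pair a b
    have h2 : max a b ^ 2 < N ^ 2 := by omega
    have h3 : max a b < N := lt_of_pow_lt_pow_left₀ 2 (Nat.zero_le _) h2
    exact ⟨(le_max_left a b).trans_lt h3, (le_max_right a b).trans_lt h3⟩
  · rintro ⟨h1, h2⟩
    refine (Nat.pair_lt_max_add_one_sq a b).trans_le ?_
    exact Nat.pow_le_pow_left (Nat.succ_le_of_lt (max_lt h1 h2)) 2

theorem sw_lt {ε : Bool} {l N : ℕ} (h : l < N ^ 2) : sw ε l < N ^ 2 := by
  cases ε with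
  | false => exact h
  | true =>
    have h1 : Nat.pair l.unpair.1 l.unpair.2 < N ^ 2 := by rwa [Nat.pair_unpair]
    have h2 := lt_sq_iff.1 h1
    exact lt_sq_iff.2 ⟨h2.2, h2.1⟩

/-- The tag of the `i`-th entry of the datum. -/
def tg (d : ℕ → ℕ) (i : ℕ) : ℕ := d (Nat.pair i 0)

/-- The function of the `i`-th entry of the datum. -/
def vl (d : ℕ → ℕ) (i l : ℕ) : ℕ := d (Nat.pair i (l + 1))

/-- The entry used in a move. -/
def mj (m : ℕ) : ℕ := m.unpair.1

/-- The next state of a move. -/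
def mi (m : ℕ) : ℕ := m.unpair.2.unpair.1

/-- The sign of a move. -/
def me (m : ℕ) : Bool := decide (m.unpair.2.unpair.2 = 1)

/-- The move. -/
def mv (j i : ℕ) (ε : Bool) : ℕ := Nat.pair j (Nat.pair i (if ε then 1 else 0))

theorem mj_mv (j i : ℕ) (ε : Bool) : mj (mv j i ε) = j := by simp [mj, mv]

theorem mi_mv (j i : ℕ) (ε : Bool) : mi (mv j i ε) = i := by simp [mi, mv]

theorem me_mv (j i : ℕ) (ε : Bool) : me (mv j i ε) = ε := by cases ε <;> simp [me, mv]

/-- The operation given by a move. -/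
def ph (d : ℕ → ℕ) (m : ℕ) (y : ℕ → ℕ) (l : ℕ) : ℕ := vl d (mj m) (Nat.pair (y (sw (me m) l)) l)

theorem ph_congr {d : ℕ → ℕ} {m N : ℕ} {y y' : ℕ → ℕ} (h : ∀ l < N ^ 2, y l = y' l) :
    ∀ l < N ^ 2, ph d m y l = ph d m y' l := by
  intro l hl
  unfold ph
  rw [h _ (sw_lt hl)]

/-- The move `m` is possible in the state `(n, i)`. -/
def Vd (d : ℕ → ℕ) (n i m : ℕ) : Prop :=
  tg d (mi m) = n + 2 ∧ tg d (mj m) = 0 ∧ ∀ l < n ^ 2, ph d m (vl d (mi m)) l = vl d i l

/-- The state is allowed. -/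
def Al (d : ℕ → ℕ) (st : ℕ × ℕ) : Prop := tg d st.2 = st.1 + 1

/-- The suitable data. -/
def Suit (d : ℕ → ℕ) : Prop := ∀ st, Al d st → ∃ m₀ m₁, Vd d st.1 st.2 m₀ ∧ Vd d st.1 st.2 m₁ ∧
  mi m₀ = mi m₁ ∧ me m₀ = false ∧ me m₁ = true

/-- There is a bit in the `k`-th column. -/
def Hit (c : ℕ → Bool) (k : ℕ) : Prop := ∃ r, c (Nat.pair k r) = true

open Classical in
/-- The first bit in the `k`-th column. -/
noncomputable def col (c : ℕ → Bool) (k : ℕ) : ℕ := if h : Hit c k then Nat.find h else 0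

theorem col_eq {c : ℕ → Bool} {k r : ℕ} (h : c (Nat.pair k r) = true)
    (h' : ∀ r' < r, c (Nat.pair k r') = false) : col c k = r := by
  classical
  have h1 : Hit c k := ⟨r, h⟩
  unfold col
  rw [dif_pos h1]
  exact (Nat.find_eq_iff _).2 ⟨h, fun r' hr' h2 => by
    rw [h' r' hr'] at h2; exact Bool.false_ne_true h2⟩

theorem col_spec {c : ℕ → Bool} {k : ℕ} (h : Hit c k) : c (Nat.pair k (col c k)) = true ∧
    ∀ r' < col c k, c (Nat.pair k r') = false := by
  classical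
  unfold col
  rw [dif_pos h]
  exact ⟨Nat.find_spec h, fun r' hr' => by simpa using Nat.find_min h hr'⟩

theorem col_congr {c c' : ℕ → Bool} {k : ℕ} (h : ∀ r, c (Nat.pair k r) = c' (Nat.pair k r)) :
    col c k = col c' k ∧ (Hit c k ↔ Hit c' k) := by
  classical
  have h1 : Hit c k ↔ Hit c' k := exists_congr fun r => by rw [h r]
  refine ⟨?_, h1⟩
  by_cases h2 : Hit c k
  · obtain ⟨h3, h4⟩ := col_spec h2
    exact (col_eq (by rw [← h]; exact h3) fun r' hr' => by rw [← h]; exact h4 r' hr').symm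
  · unfold col
    rw [dif_neg h2, dif_neg fun h3 => h2 (h1.2 h3)]

section run

variable (d : ℕ → ℕ) (c : ℕ → Bool)

open Classical in
/-- One step. -/
noncomputable def stp (k : ℕ) (st : ℕ × ℕ) : ℕ × ℕ :=
  if Vd d st.1 st.2 (col c k) then (st.1 + 1, mi (col c k)) else st

/-- The state after `t` columns, starting with the column `k₀` in the state `st`. -/
noncomputable def run (k₀ : ℕ) (st : ℕ × ℕ) : ℕ → ℕ × ℕ
  | 0 => st
  | t + 1 => stp d c (k₀ + t) (run k₀ st t)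

open Classical in
/-- The composition of the operations of the possible moves. -/
noncomputable def cm (k₀ : ℕ) (st : ℕ × ℕ) : ℕ → (ℕ → ℕ) → ℕ → ℕ
  | 0 => fun y => y
  | t + 1 => fun y => if Vd d (run d c k₀ st t).1 (run d c k₀ st t).2 (col c (k₀ + t)) then
      cm k₀ st t (ph d (col c (k₀ + t)) y) else cm k₀ st t y

open Classical in
/-- The limit. -/
noncomputable def lm (k₀ : ℕ) (st : ℕ × ℕ) (l : ℕ) : ℕ :=
  if h : ∃ t, l < (run d c k₀ st t).1 ^ 2 then
    cm d c k₀ st (Nat.find h) (vl d (run d c k₀ st (Nat.find h)).2) l else 0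

variable {d c} {k₀ : ℕ} {st : ℕ × ℕ}

theorem run_zero : run d c k₀ st 0 = st := rfl

theorem run_succ (t : ℕ) : run d c k₀ st (t + 1) = stp d c (k₀ + t) (run d c k₀ st t) := rfl

theorem cm_zero (y : ℕ → ℕ) : cm d c k₀ st 0 y = y := rfl

theorem cm_pos {t : ℕ} (h : Vd d (run d c k₀ st t).1 (run d c k₀ st t).2 (col c (k₀ + t)))
    (y : ℕ → ℕ) : cm d c k₀ st (t + 1) y = cm d c k₀ st t (ph d (col c (k₀ + t)) y) := if_pos h

theorem cm_neg {t : ℕ} (h : ¬ Vd d (run d c k₀ st t).1 (run d c k₀ st t).2 (col c (k₀ + t)))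
    (y : ℕ → ℕ) : cm d c k₀ st (t + 1) y = cm d c k₀ st t y := if_neg h

theorem run_pos {t : ℕ} (h : Vd d (run d c k₀ st t).1 (run d c k₀ st t).2 (col c (k₀ + t))) :
    run d c k₀ st (t + 1) = ((run d c k₀ st t).1 + 1, mi (col c (k₀ + t))) := if_pos h

theorem run_neg {t : ℕ} (h : ¬ Vd d (run d c k₀ st t).1 (run d c k₀ st t).2 (col c (k₀ + t))) :
    run d c k₀ st (t + 1) = run d c k₀ st t := if_neg h

theorem run_al (h : Al d st) (t : ℕ) : Al d (run d c k₀ st t) := by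
  induction t with
  | zero => exact h
  | succ t ih =>
    by_cases h1 : Vd d (run d c k₀ st t).1 (run d c k₀ st t).2 (col c (k₀ + t))
    · rw [run_pos h1]
      exact h1.1
    · rw [run_neg h1]
      exact ih

theorem run_mono {t t' : ℕ} (h : t ≤ t') : (run d c k₀ st t).1 ≤ (run d c k₀ st t').1 := by
  induction t', h using Nat.le_induction with
  | base => exact le_rfl
  | succ t' _ ih =>
    refine ih.trans ?_
    by_cases h1 : Vd d (run d c k₀ st t').1 (run d c k₀ st t').2 (col c (k₀ + t'))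
    · rw [run_pos h1]
      exact Nat.le_succ _
    · rw [run_neg h1]

theorem cm_congr {t N : ℕ} {y y' : ℕ → ℕ} (h : ∀ l < N ^ 2, y l = y' l) :
    ∀ l < N ^ 2, cm d c k₀ st t y l = cm d c k₀ st t y' l := by
  induction t generalizing y y' with
  | zero => exact h
  | succ t ih =>
    by_cases h1 : Vd d (run d c k₀ st t).1 (run d c k₀ st t).2 (col c (k₀ + t))
    · rw [cm_pos h1, cm_pos h1]
      exact ih (ph_congr h)
    · rw [cm_neg h1, cm_neg h1]
      exact ih h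

theorem cm_stable {t t' : ℕ} (h : t ≤ t') {l : ℕ} (hl : l < (run d c k₀ st t).1 ^ 2) :
    cm d c k₀ st t' (vl d (run d c k₀ st t').2) l = cm d c k₀ st t (vl d (run d c k₀ st t).2) l := by
  induction h with
  | refl => rfl
  | step h ih =>
    rename_i t'
    rw [← ih]
    by_cases h1 : Vd d (run d c k₀ st t').1 (run d c k₀ st t').2 (col c (k₀ + t'))
    · rw [cm_pos h1, run_pos h1]
      refine cm_congr (N := (run d c k₀ st t').1) h1.2.2 l (hl.trans_le ?_)
      exact Nat.pow_le_pow_left (run_mono h) 2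
    · rw [cm_neg h1, run_neg h1]

theorem lm_eq {t l : ℕ} (hl : l < (run d c k₀ st t).1 ^ 2) :
    lm d c k₀ st l = cm d c k₀ st t (vl d (run d c k₀ st t).2) l := by
  classical
  have h : ∃ t, l < (run d c k₀ st t).1 ^ 2 := ⟨t, hl⟩
  unfold lm
  rw [dif_pos h]
  exact (cm_stable (Nat.find_min' h hl) (Nat.find_spec h)).symm

theorem run_add (a t : ℕ) :
    run d c k₀ st (a + t) = run d c (k₀ + a) (run d c k₀ st a) t := by
  induction t with
  | zero => rfl
  | succ t ih =>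
    rw [← add_assoc, run_succ, run_succ, ih, add_assoc]

theorem cm_add (a t : ℕ) (y : ℕ → ℕ) :
    cm d c k₀ st (a + t) y = cm d c k₀ st a (cm d c (k₀ + a) (run d c k₀ st a) t y) := by
  induction t generalizing y with
  | zero => rfl
  | succ t ih =>
    rw [← add_assoc]
    have e1 := run_add (d := d) (c := c) (k₀ := k₀) (st := st) a t
    by_cases h1 : Vd d (run d c k₀ st (a + t)).1 (run d c k₀ st (a + t)).2 (col c (k₀ + (a + t)))
    · have h2 := h1
      rw [e1, ← add_assoc] at h2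
      rw [cm_pos h1, cm_pos h2, ih, add_assoc]
    · have h2 := h1
      rw [e1, ← add_assoc] at h2
      rw [cm_neg h1, cm_neg h2, ih]

/-- The path reaches all levels. -/
def Rch (d : ℕ → ℕ) (c : ℕ → Bool) (k₀ : ℕ) (st : ℕ × ℕ) : Prop :=
  ∀ N, ∃ t, N ≤ (run d c k₀ st t).1

theorem Rch.shift (h : Rch d c k₀ st) (a : ℕ) : Rch d c (k₀ + a) (run d c k₀ st a) := by
  intro N
  obtain ⟨t, ht⟩ := h N
  refine ⟨t, ht.trans ?_⟩
  rw [← run_add]
  exact run_mono (Nat.le_add_left t a)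

theorem lt_succ_sq (l : ℕ) : l < (l + 1) ^ 2 := by nlinarith

theorem lm_shift (h : Rch d c k₀ st) (a : ℕ) :
    lm d c k₀ st = cm d c k₀ st a (lm d c (k₀ + a) (run d c k₀ st a)) := by
  funext l
  obtain ⟨t, ht⟩ := h.shift a (l + 1)
  have h1 : (l + 1) ^ 2 ≤ (run d c (k₀ + a) (run d c k₀ st a) t).1 ^ 2 := Nat.pow_le_pow_left ht 2
  have h2 : l < (run d c k₀ st (a + t)).1 ^ 2 := by
    rw [run_add]
    exact (lt_succ_sq l).trans_le h1
  rw [lm_eq h2, cm_add, run_add]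
  refine cm_congr (N := l + 1) (fun l' hl' => ?_) l (lt_succ_sq l)
  exact (lm_eq (hl'.trans_le h1)).symm

end run

/-! ### Dependence on the columns -/

section dep

variable {d : ℕ → ℕ} {c c' : ℕ → Bool} {k₀ : ℕ} {st : ℕ × ℕ}

theorem run_dep {t : ℕ} (h : ∀ k, k₀ ≤ k → k < k₀ + t → col c k = col c' k) :
    run d c k₀ st t = run d c' k₀ st t := by
  induction t with
  | zero => rfl
  | succ t ih =>
    rw [run_succ, run_succ, ih fun k h1 h2 => h k h1 (by omega)]
    unfold stp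
    rw [h (k₀ + t) (by omega) (by omega)]

theorem cm_dep {t : ℕ} (h : ∀ k, k₀ ≤ k → k < k₀ + t → col c k = col c' k) (y : ℕ → ℕ) :
    cm d c k₀ st t y = cm d c' k₀ st t y := by
  induction t generalizing y with
  | zero => rfl
  | succ t ih =>
    have e1 := run_dep (d := d) (st := st) (t := t) fun k h1 h2 => h k h1 (by omega)
    have e2 := h (k₀ + t) (by omega) (by omega)
    by_cases h1 : Vd d (run d c k₀ st t).1 (run d c k₀ st t).2 (col c (k₀ + t))
    · have h2 := h1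
      rw [e1, e2] at h2
      rw [cm_pos h1, cm_pos h2, ih (fun k h1 h2 => h k h1 (by omega)), e2]
    · have h2 := h1
      rw [e1, e2] at h2
      rw [cm_neg h1, cm_neg h2, ih fun k h1 h2 => h k h1 (by omega)]

theorem lm_dep (h : ∀ k, k₀ ≤ k → col c k = col c' k) : lm d c k₀ st = lm d c' k₀ st := by
  funext l
  have e1 : ∀ t, run d c k₀ st t = run d c' k₀ st t := fun t => run_dep fun k h1 _ => h k h1
  by_cases hl : ∃ t, l < (run d c k₀ st t).1 ^ 2
  · obtain ⟨t, ht⟩ := hl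
    have ht' := ht
    rw [e1] at ht'
    rw [lm_eq ht, lm_eq ht', e1, cm_dep fun k h1 _ => h k h1]
  · have hl' : ¬ ∃ t, l < (run d c' k₀ st t).1 ^ 2 := by
      rintro ⟨t, ht⟩
      exact hl ⟨t, by rw [e1]; exact ht⟩
    unfold lm
    rw [dif_neg hl, dif_neg hl']

end dep

/-! ### Signs -/

section sign

variable {d : ℕ → ℕ} {c : ℕ → Bool} {k₀ : ℕ} {st : ℕ × ℕ}

/-- The moves preserve `Q` and change `ξ` according to their signs. -/
def Sg (d : ℕ → ℕ) (Q : (ℕ → ℕ) → Prop) (ξ : (ℕ → ℕ) → Bool) : Prop :=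
  ∀ m, tg d (mj m) = 0 → ∀ y, Q y → Q (ph d m y) ∧ ξ (ph d m y) = (ξ y).xor (me m)

theorem cm_sign {Q : (ℕ → ℕ) → Prop} {ξ : (ℕ → ℕ) → Bool} (h : Sg d Q ξ) (t : ℕ) :
    ∃ ε : Bool, ∀ y, Q y → Q (cm d c k₀ st t y) ∧ ξ (cm d c k₀ st t y) = (ξ y).xor ε := by
  induction t with
  | zero => exact ⟨false, fun y hy => ⟨hy, by rw [cm_zero]; simp⟩⟩
  | succ t ih =>
    obtain ⟨ε, hε⟩ := ih
    by_cases h1 : Vd d (run d c k₀ st t).1 (run d c k₀ st t).2 (col c (k₀ + t))
    · refine ⟨(me (col c (k₀ + t))).xor ε, fun y hy => ?_⟩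
      obtain ⟨h2, h3⟩ := h _ h1.2.1 y hy
      obtain ⟨h4, h5⟩ := hε _ h2
      rw [cm_pos h1]
      exact ⟨h4, by rw [h5, h3, Bool.xor_assoc]⟩
    · refine ⟨ε, fun y hy => ?_⟩
      rw [cm_neg h1]
      exact hε y hy

/-- The limit can be approximated. -/
theorem lm_approx {Q : (ℕ → ℕ) → Prop} {ξ : (ℕ → ℕ) → Bool} (h : Sg d Q ξ)
    (hQ : ∀ i n, tg d i = n + 1 → Q (vl d i)) (hst : Al d st) (hr : Rch d c k₀ st) (N : ℕ) :
    ∃ y, Q y ∧ ∀ l < N, lm d c k₀ st l = y l := by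
  obtain ⟨t, ht⟩ := hr N
  obtain ⟨ε, hε⟩ := cm_sign (c := c) (k₀ := k₀) (st := st) h t
  refine ⟨cm d c k₀ st t (vl d (run d c k₀ st t).2), (hε _ (hQ _ _ (run_al hst t))).1,
    fun l hl => lm_eq ?_⟩
  have h1 : N ^ 2 ≤ (run d c k₀ st t).1 ^ 2 := Nat.pow_le_pow_left ht 2
  nlinarith

end sign

end Pool.Agent.L5helper55.OC
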