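import Pool.Agent.Y588.KF.Flip
import Pool.Agent.W910.BG.Fin

/-!
# A symmetric Cohen model with few functions on the Cantor space
-/

set_option autoImplicit false
set_option linter.unusedSectionVars false

namespace Pool.Agent.L5helper55.OC

open Topology Filter Pool.Agent.W868 Pool.Agent.W868.PName Pool.Agent.W910.SY Pool.Agent.W910.BG
  Pool.Agent.Y588.KF
open ZFSet (pair)

/-- Pairs of a real and a sequence of bits. -/
abbrev E : Type := (ℕ → ℕ) × (ℕ → Bool)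

/-- The sequence of bits, changed at the places in `s`. -/
def flp (s : Finset ℕ) (c : ℕ → Bool) (n : ℕ) : Bool := (c n).xor (decide (n ∈ s))

variable {I : Type}

open Classical in
/-- The function `h`, made locally constant on a dense open set. -/
noncomputable def lcz (h : X I → ℕ → ℕ) (x : X I) (n : ℕ) : ℕ :=
  if ∀ᶠ y in 𝓝 x, h y n = h x n then h x n else 0

theorem lcz_lc (h : X I → ℕ → ℕ) (n : ℕ) : LC fun x => lcz h x n := by
  unfold LC
  rw [dense_iff_inter_open]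
  intro V hV ⟨x, hx⟩
  by_cases hc : ∃ x ∈ V, ∀ᶠ y in 𝓝 x, h y n = h x n
  · obtain ⟨x, hxV, hx1⟩ := hc
    refine ⟨x, hxV, ?_⟩
    change ∀ᶠ y in 𝓝 x, lcz h y n = lcz h x n
    have h2 : ∀ᶠ y in 𝓝 x, ∀ᶠ z in 𝓝 y, h z n = h x n := hx1.eventually_nhds
    filter_upwards [h2, hx1] with y hy hy1
    have h3 : ∀ᶠ z in 𝓝 y, h z n = h y n := by rw [hy1]; exact hy
    unfold lcz
    rw [if_pos h3, if_pos hx1, hy1]
  · refine ⟨x, hx, ?_⟩
    change ∀ᶠ y in 𝓝 x, lcz h y n = lcz h x n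
    filter_upwards [hV.mem_nhds hx] with y hy
    unfold lcz
    rw [if_neg fun h1 => hc ⟨y, hy, h1⟩, if_neg fun h1 => hc ⟨x, hx, h1⟩]

theorem ev_sup {S : Set I} {h : X I → ℕ → ℕ} (hS : SupOn S h) {x y : X I}
    (hxy : ∀ i ∈ S, x i = y i) {n : ℕ} (hx : ∀ᶠ z in 𝓝 x, h z n = h x n) :
    ∀ᶠ z in 𝓝 y, h z n = h y n := by
  classical
  have hc : Continuous fun z : X I => (fun i => if i ∈ S then z i else x i : X I) := by
    refine continuous_pi fun i => ?_
    by_cases hi : i ∈ S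
    · simp only [if_pos hi]; exact continuous_apply i
    · simp only [if_neg hi]; exact continuous_const
  have h1 : (fun i => if i ∈ S then y i else x i : X I) = x := by
    funext i
    by_cases hi : i ∈ S
    · simp only [if_pos hi]; exact (hxy i hi).symm
    · simp only [if_neg hi]
  have h2 : Tendsto (fun z : X I => (fun i => if i ∈ S then z i else x i : X I)) (𝓝 y) (𝓝 x) := by
    have h3 := hc.tendsto y
    rwa [h1] at h3
  refine (h2.eventually hx).mono fun z hz => ?_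
  have h4 : h z = h (fun i => if i ∈ S then z i else x i) :=
    hS _ _ fun i hi => by rw [if_pos hi]
  rw [h4, ← hS x y hxy]
  exact hz

theorem lcz_sup {S : Set I} {h : X I → ℕ → ℕ} (hS : SupOn S h) : SupOn S (lcz h) := by
  intro x y hxy
  funext n
  have h1 : (∀ᶠ z in 𝓝 x, h z n = h x n) ↔ ∀ᶠ z in 𝓝 y, h z n = h y n :=
    ⟨fun h1 => ev_sup hS hxy h1, fun h1 => ev_sup hS (fun i hi => (hxy i hi).symm) h1⟩
  unfold lcz
  rw [hS x y hxy]
  by_cases h2 : ∀ᶠ z in 𝓝 x, h z n = h x n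
  · have h3 := h1.1 h2
    rw [hS x y hxy] at h2
    rw [if_pos h2, if_pos h3]
  · have h3 := fun h4 => h2 (h1.2 h4)
    rw [hS x y hxy] at h2
    rw [if_neg h2, if_neg h3]

theorem lcz_eq {h : X I → ℕ → ℕ} {x : X I} (hx : ∀ n, ∀ᶠ y in 𝓝 x, h y n = h x n) :
    lcz h x = h x := by
  funext n
  unfold lcz
  rw [if_pos (hx n)]

/-- The name for `F` applied to the real named by `f` and the generic bits at `β`. -/
noncomputable def gN (F : E → ℕ → ℕ) (f : NR I) (β : I) : NR I :=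
  ⟨lcz fun x => F (f.1 x, x β), by
    obtain ⟨⟨S, hS, hf⟩, -⟩ := f.2
    exact ⟨S ∪ {β}, hS.union (Set.countable_singleton β), lcz_sup fun x y h => by
      rw [hf x y fun i hi => h i (Or.inl hi), h β (Or.inr rfl)]⟩, fun n => lcz_lc _ n⟩

theorem tend {f : NR I} {x : X I} (hf : ∀ n, ∀ᶠ y in 𝓝 x, f.1 y n = f.1 x n) (β : I) :
    Tendsto (fun y : X I => ((f.1 y, y β) : E)) (𝓝 x) (𝓝 (f.1 x, x β)) := by
  refine Tendsto.prodMk_nhds (tendsto_pi_nhds.2 fun n => ?_) ((continuous_apply β).tendsto x)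
  exact tendsto_const_nhds.congr' ((hf n).mono fun y hy => hy.symm)

theorem gN_eq {F : E → ℕ → ℕ} {f : NR I} {β : I} {x : X I}
    (hf : ∀ n, ∀ᶠ y in 𝓝 x, f.1 y n = f.1 x n)
    (hF : ∀ l, ∀ᶠ e in 𝓝 ((f.1 x, x β) : E), F e l = F (f.1 x, x β) l) :
    (gN F f β).1 x = F (f.1 x, x β) :=
  lcz_eq (h := fun x => F (f.1 x, x β)) fun n => (tend hf β).eventually (hF n)

/-- The generic bits at `β` are generic over the reals with a name whose support omits `β`. -/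
theorem res {f : NR I} {β : I} {S : Set I} (hβ : β ∉ S) (hf : SupOn S f.1)
    {Suit : (ℕ → ℕ) → Prop} {O : Set E} (hO : ∀ d, Suit d → ∀ (c : ℕ → Bool) (N : ℕ),
      ∃ c', (∀ b < N, c' b = c b) ∧ O ∈ 𝓝 (d, c')) :
    {x : X I | Suit (f.1 x) → (f.1 x, x β) ∈ O} ∈ residual (X I) := by
  classical
  set OL : Set (X I) := {z | ∀ᶠ w in 𝓝 z, (f.1 w, w β) ∈ O} with hOL
  have ho : IsOpen OL := isOpen_setOfPred_eventually_nhds
  have hD : Dense (OL ∪ (closure OL)ᶜ) := by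
    intro x
    by_cases hx : x ∈ closure OL
    · exact closure_mono Set.subset_union_left hx
    · exact subset_closure (Or.inr hx)
  have h1 : OL ∪ (closure OL)ᶜ ∈ residual (X I) :=
    residual_of_dense_open (ho.union isClosed_closure.isOpen_compl) hD
  have h2 : ∀ᶠ x in residual (X I), ∀ n, ∀ᶠ y in 𝓝 x, f.1 y n = f.1 x n :=
    eventually_countable_forall.2 fun n => lc_res f n
  filter_upwards [h1, h2] with x hx hx2 hS
  rcases hx with hx | hx
  · exact hx.self_of_nhds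
  · exfalso
    obtain ⟨s, N, hs⟩ := T_CONF.cyl (isClosed_closure.isOpen_compl) hx
    obtain ⟨c', hc1, hc2⟩ := hO _ hS (x β) N
    set z : X I := Function.update x β c' with hz
    have hzβ : z β = c' := Function.update_self β c' x
    have hzi : ∀ i, i ≠ β → z i = x i := fun i hi => Function.update_of_ne hi c' x
    have hz1 : z ∈ (closure OL)ᶜ := by
      refine hs z fun a _ n hn => ?_
      by_cases ha : a = β
      · subst ha
        rw [hzβ, hc1 n hn]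
      · rw [hzi a ha]
    have hSz : ∀ i ∈ S, x i = z i := fun i hi => (hzi i fun h => hβ (h ▸ hi)).symm
    have hfz : ∀ n, ∀ᶠ y in 𝓝 z, f.1 y n = f.1 z n := fun n => ev_sup hf hSz (hx2 n)
    have h3 := tend hfz β
    rw [hzβ, ← hf x z hSz] at h3
    exact hz1 (subset_closure (h3.eventually hc2))

/-! ### Rules -/

section rules

variable {P' : Type} [Preorder P'] [OrderTop P']

/-- The rule given by an operation on two names and a condition. -/
def r02 (F : PName P' → PName P' → P' → PName P') : Rule P' := fun q => match q with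
  | ⟨_, .mem s t, v, p⟩ => (F (tv v s) (tv v t) p, p)
  | q => (emp, q.p)

theorem r02_mem {R : Set (Rule P')} {π : Pkg P'} (hR : ClR R π)
    {F : PName P' → PName P' → P' → PName P'} (hF : r02 F ∈ R) {x y : PName P'} (hx : x ∈ π.N)
    (hy : y ∈ π.N) (k : ℕ) : F x y (π.g k) ∈ π.N := (hR _ hF _ (query2 hx hy (π.gC k))).1

end rules

variable {ι Λ : Type} (F : ι → E → ℕ → ℕ) (Suit : (ℕ → ℕ) → Prop) (O : Λ → Set E)

/-- The bits of the finite set. -/
def bt (s : Finset ℕ) (n : ℕ) : Bool := decide (n ∈ s)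

open Classical in
/-- The rules. -/
noncomputable def ruK : Set (Rule (P ℝ)) :=
  {r02 (fun x y _ => if h : ∃ β : ℝ, ∃ (f : NR ℝ) (S : Set ℝ), y = check (cd f) ∧ β ∉ S ∧
      SupOn S f.1 ∧ ∀ g ∈ Fx S, ∀ p : P ℝ, Feq (act (smQ g) x) x p then
        check (cd h.choose) else emp),
   r1 (fun (β : ℝ) p => Sys.nm (P ℝ) {r | r ≤ p ∧ ∃ N : ℕ, ∀ t : ℕ → Bool,
      (∀ n < N, t n = false) → smQ (fl β t) r = r})} ∪
  (Set.range fun i : ι => r2 (fun (f : NR ℝ) (β : ℝ) _ => check (cd (gN (F i) f β)))) ∪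
  (Set.range fun t : ι × Finset ℕ => r2 (fun (f : NR ℝ) (β : ℝ) _ =>
    check (cd (smR (fl β (bt t.2)) (gN (F t.1) f β))))) ∪
  (Set.range fun t : Λ × Finset ℕ => r2 (fun (f : NR ℝ) (β : ℝ) _ =>
    check (cd {x : X ℝ | Suit (f.1 x) → (f.1 x, x β) ∈ {e : E | (e.1, flp t.2 e.2) ∈ O t.1}})))

theorem countable_rules [Countable ι] [Countable Λ] :
    (((sys ℝ (⊤ : SimpleGraph (ℕ → ℕ))).rules ∪ ruR ℝ ⊤) ∪ (ruP ℝ ⊤ ∪ ruK F Suit O)).Countable := by
  refine ((Set.Finite.countable ?_).union (Set.Finite.countable ?_)).union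
    (Set.Countable.union ?_ ?_)
  · unfold Sys.rules
    exact Set.toFinite _
  · unfold ruR
    exact Set.toFinite _
  · unfold ruP
    exact ((Set.countable_singleton _).union (Set.countable_range _)).union
      (Set.countable_range _)
  · unfold ruK
    exact ((((Set.toFinite _).countable.union (Set.countable_range _)).union
      (Set.countable_range _)).union (Set.countable_range _))

theorem flp_flp (s : Finset ℕ) (c : ℕ → Bool) : flp s (flp s c) = c := by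
  funext n
  simp [flp]

theorem tendsto_flp (s : Finset ℕ) (e : E) :
    Tendsto (fun e : E => ((e.1, flp s e.2) : E)) (𝓝 e) (𝓝 (e.1, flp s e.2)) := by
  have h : Continuous fun e : E => ((e.1, flp s e.2) : E) := by
    refine Continuous.prodMk continuous_fst (continuous_pi fun n => ?_)
    have h1 : Continuous fun b : Bool => b.xor (decide (n ∈ s)) := continuous_of_discreteTopology
    exact h1.comp ((continuous_apply n).comp continuous_snd)
  exact h.tendsto e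

/-- **The model.** -/
theorem model [Countable ι] [Countable Λ] {κ : Type} [Countable κ] (z : κ → ℕ → ℕ)
    (hF : ∀ d c, Suit d → (∀ L, (d, c) ∈ O L) → ∀ i l, ∀ᶠ e in 𝓝 ((d, c) : E),
      F i e l = F i (d, c) l)
    (hO : ∀ d, Suit d → ∀ (L : Λ) (c : ℕ → Bool) (N : ℕ),
      ∃ c', (∀ b < N, c' b = c b) ∧ O L ∈ 𝓝 ((d, c') : E)) :
    ∃ M : Set ZFSet.{0}, M.Countable ∧ IsZF M ∧ DC M ∧ (∀ k, code (z k) ∈ M) ∧
      ∀ T ∈ M, ∀ d, code d ∈ M → Suit d → ∃ c : ℕ → Bool, (∀ (s : Finset ℕ) L,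
        (d, flp s c) ∈ O L) ∧ (∀ i (s : Finset ℕ), code (F i (d, flp s c)) ∈ M) ∧
        ∀ i, code (F i (d, c)) ∈ T → ∃ N, ∀ s : Finset ℕ, (∀ b ∈ s, N ≤ b) →
          code (F i (d, flp s c)) ∈ T := by
  classical
  obtain ⟨R, hRd⟩ : ∃ R : Set (Rule (P ℝ)), R =
    (((sys ℝ (⊤ : SimpleGraph (ℕ → ℕ))).rules ∪ ruR ℝ ⊤) ∪ (ruP ℝ ⊤ ∪ ruK F Suit O)) := ⟨_, rfl⟩
  obtain ⟨π, hA, -, hcl⟩ := exists_pkg R (hRd ▸ countable_rules F Suit O)
    (Set.range fun k => check (cd (cst ℝ (z k)))) (Set.countable_range _) ⊤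
  have hR : ClR R π := hcl
  have hRR : ruR ℝ ⊤ ⊆ R := fun _ h => hRd ▸ Or.inl (Or.inr h)
  have hRP : ruP ℝ ⊤ ⊆ R := fun _ h => hRd ▸ Or.inr (Or.inl h)
  have hRK : ruK F Suit O ⊆ R := fun _ h => hRd ▸ Or.inr (Or.inr h)
  have hCld : (sys ℝ (⊤ : SimpleGraph (ℕ → ℕ))).Cld π :=
    fun ρ hρ => hcl ρ (hRd ▸ Or.inl (Or.inl hρ))
  have hM : IsZF ((sys ℝ (⊤ : SimpleGraph (ℕ → ℕ))).Ms π) :=
    Pool.Agent.W910.SY.T_ZF.main Pool.Agent.W910.SY.T_TRU.main Pool.Agent.W910.SY.T_SEP.main _ _ π hCld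
  have hclo := Pool.Agent.W654.SY.main _ (sys ℝ (⊤ : SimpleGraph (ℕ → ℕ))) (T_DST.main ℝ ⊤) π hCld
  have hMW : (sys ℝ (⊤ : SimpleGraph (ℕ → ℕ))).Ms π ⊆ π.W := by
    rintro _ ⟨x, ⟨hx, -⟩, rfl⟩
    exact π.val_mem_W hx
  have hDC : DC ((sys ℝ (⊤ : SimpleGraph (ℕ → ℕ))).Ms π) :=
    Pool.Agent.W910.SY.T_DC.main _ _ π.isZFC_W hM hMW hclo
  obtain ⟨x, hx, hx'⟩ := point hR hRP
  have hrN : ∀ f : NR ℝ, Hul π f → (realN ⊤ f : PName (P ℝ)) ∈ π.N := fun f hf =>
    r1_mem hR (F := fun (f : NR ℝ) _ => realN ⊤ f) (hRR (by simp [ruR])) hf 0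
  have hrl : ∀ f : NR ℝ, Hul π f → code (f.1 x) ∈ (sys ℝ (⊤ : SimpleGraph (ℕ → ℕ))).Ms π :=
    fun f hf => ⟨realN ⊤ f, ⟨hrN f hf, T_NAM.hs_realN f⟩, val_realN hR hRP hx hf⟩
  have hreal : ∀ s ∈ π.W, ZFSet.IsFunc ZFSet.omega ZFSet.omega s →
      ∃ f : NR ℝ, Hul π f ∧ s = code (f.1 x) := by
    intro s hs hsf
    obtain ⟨f, hf, h1⟩ := T_REAL.main T_DST.main2 ℝ ⊤ π
      (fun ρ hρ => hcl ρ (hRR hρ)) s hs hsf
    exact ⟨f, hf, h1.trans (val_realN hR hRP hx hf)⟩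
  refine ⟨(sys ℝ (⊤ : SimpleGraph (ℕ → ℕ))).Ms π, (π.cnt.mono fun _ h => h.1).image _, hM, hDC,
    fun k => hrl (cst ℝ (z k)) (hA ⟨k, rfl⟩), ?_⟩
  rintro _ ⟨T, ⟨hTN, hTH⟩, rfl⟩ d hd hSuit
  obtain ⟨f, hf, hfd⟩ := hreal _ (hMW hd) (isFunc_code d)
  obtain rfl : d = f.1 x := code_injective hfd
  -- the index
  obtain ⟨H, ⟨S, hS, rfl⟩, hfix⟩ := hTH.sym
  obtain ⟨S', hS', hfS'⟩ := f.2.1
  have hex : ∃ β : ℝ, ∃ (f' : NR ℝ) (S : Set ℝ), (check (cd f) : PName (P ℝ)) = check (cd f') ∧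
      β ∉ S ∧ SupOn S f'.1 ∧ ∀ g ∈ Fx S, ∀ p : P ℝ, Feq (act (smQ g) T) T p := by
    obtain ⟨β, hβ⟩ := exists_out (hS.union hS')
    exact ⟨β, f, S ∪ S', rfl, hβ, fun x y h => hfS' x y fun i hi => h i (Or.inr hi),
      fun g hg p => hfix g (fun x i hi => hg x i (Or.inl hi)) p⟩
  have h0 := r02_mem hR (hRK (Or.inl (Or.inl (Or.inl (Or.inl rfl))))) hTN hf 0
  rw [dif_pos hex] at h0
  obtain ⟨f', S₁, hff, hβS, hfS, hinv⟩ := hex.choose_spec
  set β := hex.choose with hβd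
  obtain rfl : f = f' := check_cd_injective hff
  have hβ : Hul π β := h0
  clear_value β
  -- local constancy
  have hfx : ∀ n, ∀ᶠ y in 𝓝 x, f.1 y n = f.1 x n := by
    intro n
    have h1 := r1_mem hR (hRP (Or.inr ⟨n, rfl⟩)) hf 0
    obtain ⟨k, -, m, hm⟩ := gen_dense' π (m := 0) h1
      (fun r ⟨m, hm⟩ q hq => ⟨m, fun y hy => hm y (hq.2 hy)⟩) (fun q _ => lc_dense f q)
    filter_upwards [(π.g k).2.2.1.mem_nhds (hx k)] with y hy
    rw [hm y hy, hm x (hx k)]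
  -- niceness
  have hnice : ∀ (s : Finset ℕ) L, (f.1 x, flp s (x β)) ∈ O L := by
    intro s L
    have h1 : Hul π {x : X ℝ | Suit (f.1 x) →
      (f.1 x, x β) ∈ {e : E | (e.1, flp s e.2) ∈ O L}} :=
      r2_mem hR (hRK (Or.inr ⟨(L, s), rfl⟩)) hf hβ 0
    have h2 := hx' _ h1 (res hβS hfS (O := {e : E | (e.1, flp s e.2) ∈ O L})
      fun d hd c N => by
        obtain ⟨c', h3, h4⟩ := hO d hd L (flp s c) N
        refine ⟨flp s c', fun b hb => ?_, ?_⟩
        · have h5 := h3 b hb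
          simp only [flp] at h5 ⊢
          rw [h5]
          simp
        · have h5 := tendsto_flp s (d, flp s c')
          simp only [flp_flp] at h5
          exact h5 h4)
    exact h2 hSuit
  -- the flipped points
  have hxs : ∀ (s : Finset ℕ), ((fl β (bt s)).symm x) β = flp s (x β) := by
    intro s
    funext n
    rw [fl_symm]
    rfl
  have hxo : ∀ (s : Finset ℕ) (i : ℝ), i ≠ β → ((fl β (bt s)).symm x) i = x i := by
    intro s i hi
    exact fl_ne β (bt s) x hi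
  have hag : ∀ (s : Finset ℕ), ∀ i ∈ S₁, x i = ((fl β (bt s)).symm x) i := fun s i hi =>
    (hxo s i fun h => hβS (h ▸ hi)).symm
  have hval : ∀ i (s : Finset ℕ), (smR (fl β (bt s)) (gN (F i) f β)).1 x =
      F i (f.1 x, flp s (x β)) := by
    intro i s
    change (gN (F i) f β).1 ((fl β (bt s)).symm x) = _
    have e1 := hfS _ _ (hag s)
    have e2 := hxs s
    rw [gN_eq (fun n => ev_sup hfS (hag s) (hfx n))]
    · rw [← e1, e2]
    · rw [← e1, e2]
      exact hF _ _ hSuit (hnice s) i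
  have hval0 : ∀ i, (gN (F i) f β).1 x = F i (f.1 x, x β) := by
    intro i
    have h1 := hnice ∅
    have h2 : flp ∅ (x β) = x β := by funext n; simp [flp]
    rw [h2] at h1
    exact gN_eq hfx (hF _ _ hSuit h1 i)
  have hHg : ∀ i, Hul π (gN (F i) f β) := fun i =>
    r2_mem hR (hRK (Or.inl (Or.inl (Or.inr ⟨i, rfl⟩)))) hf hβ 0
  have hHs : ∀ i (s : Finset ℕ), Hul π (smR (fl β (bt s)) (gN (F i) f β)) := fun i s =>
    r2_mem hR (hRK (Or.inl (Or.inr ⟨(i, s), rfl⟩))) hf hβ 0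
  refine ⟨x β, hnice, fun i s => ?_, fun i hi => ?_⟩
  · rw [← hval i s]
    exact hrl _ (hHs i s)
  · rw [← hval0 i, ← val_realN hR hRP hx (hHg i), π.val_mem_iff (hrN _ (hHg i)) hTN] at hi
    obtain ⟨m, hm⟩ := hi
    have h3 := r1_mem hR (hRK (Or.inl (Or.inl (Or.inl (Or.inr rfl))))) hβ m
    obtain ⟨k, hk, r, ⟨hr1, N, hN⟩, hr2⟩ := gen_dense π h3 (m := m) (by
      intro q hq
      obtain ⟨q', hq', N, hN⟩ := flip_cond q β
      exact ⟨q', hq', hq'.trans hq, N, hN⟩)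
    refine ⟨N, fun s hs => ?_⟩
    have h4 := fmem_act' (e := smQ (fl β (bt s))) (hm.mono hr1)
    rw [hN (bt s) fun n hn => by
      simp only [bt, decide_eq_false_iff_not]
      intro h
      exact absurd (hs n h) (by omega)] at h4
    have h5 : Fmem (realN ⊤ (smR (fl β (bt s)) (gN (F i) f β))) T r :=
      fmem_congr (T_NAM.feq_act_realN _ _ _) (hinv _ (fl_mem hβS _) _) h4
    rw [← hval i s, ← val_realN hR hRP hx (hHs i s), π.val_mem_iff (hrN _ (hHs i s)) hTN]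
    exact ⟨k, h5.mono hr2⟩

end Pool.Agent.L5helper55.OC
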