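import Pool.Agent.L5helper55.OC.Comb
import Pool.Agent.L5helper55.OC.Forc

/-!
# Generic paths
-/

set_option autoImplicit false
set_option linter.unusedSectionVars false

namespace Pool.Agent.L5helper55.OC

open Topology Filter

/-- The change of the bits in `s` changes the sign of the path. -/
def Good (k₀ : ℕ) (st : ℕ × ℕ) (e : E) (s : Finset ℕ) : Prop :=
  ∃ a m, m < col e.2 (k₀ + a) ∧ s = {Nat.pair (k₀ + a) m} ∧ (∀ k ≤ k₀ + a, Hit e.2 k) ∧
    Vd e.1 (run e.1 e.2 k₀ st a).1 (run e.1 e.2 k₀ st a).2 (col e.2 (k₀ + a)) ∧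
    Vd e.1 (run e.1 e.2 k₀ st a).1 (run e.1 e.2 k₀ st a).2 m ∧
    mi m = mi (col e.2 (k₀ + a)) ∧ me m ≠ me (col e.2 (k₀ + a))

theorem flp_col {c : ℕ → Bool} {k m : ℕ} (h : m < col c k) (hk : Hit c k) :
    col (flp {Nat.pair k m} c) k = m := by
  obtain ⟨-, h2⟩ := col_spec hk
  refine col_eq ?_ fun r' hr' => ?_
  · simp [flp, h2 m h]
  · have h3 : Nat.pair k r' ≠ Nat.pair k m := fun h4 => by
      have h5 := Nat.pair_eq_pair.1 h4
      omega
    simp [flp, h3, h2 r' (hr'.trans h)]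

theorem flp_col_ne {c : ℕ → Bool} {k k' m : ℕ} (h : k' ≠ k) :
    col (flp {Nat.pair k m} c) k' = col c k' := by
  refine (col_congr fun r => ?_).1
  have h3 : Nat.pair k' r ≠ Nat.pair k m := fun h4 => h (Nat.pair_eq_pair.1 h4).1
  simp [flp, h3]

theorem flip_ne {d : ℕ → ℕ} {c : ℕ → Bool} {k₀ : ℕ} {st : ℕ × ℕ} {s : Finset ℕ}
    {Q : (ℕ → ℕ) → Prop} {ξ : (ℕ → ℕ) → Bool} (h : Sg d Q ξ) (hal : Al d st)
    (hr : Rch d c k₀ st) (hG : Good k₀ st (d, c) s)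
    (hQ : ∀ k₁ st₁, Al d st₁ → Q (lm d c k₁ st₁)) :
    Q (lm d c k₀ st) ∧ Q (lm d (flp s c) k₀ st) ∧
      ξ (lm d (flp s c) k₀ st) ≠ ξ (lm d c k₀ st) := by
  obtain ⟨a, m, hm, rfl, hhit, hV, hV', hmi, hme⟩ := hG
  simp only at hm hhit hV hV' hmi hme
  set k := k₀ + a with hk
  set c' := flp {Nat.pair k m} c with hc'
  have hck : col c' k = m := flp_col hm (hhit k le_rfl)
  have hcne : ∀ k', k' ≠ k → col c' k' = col c k' := fun k' h' => flp_col_ne h'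
  have e1 : run d c' k₀ st a = run d c k₀ st a :=
    run_dep fun k' _ h2 => hcne k' (by omega)
  have e2 : run d c k₀ st (a + 1) = ((run d c k₀ st a).1 + 1, mi (col c k)) := run_pos hV
  have hV2 : Vd d (run d c' k₀ st a).1 (run d c' k₀ st a).2 (col c' (k₀ + a)) := by
    rw [e1, ← hk, hck]
    exact hV'
  have e3 : run d c' k₀ st (a + 1) = run d c k₀ st (a + 1) := by
    rw [run_pos hV2, e2, e1, ← hk, hck, hmi]
  have hr' : Rch d c' k₀ st := by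
    intro N
    obtain ⟨t, ht⟩ := hr N
    refine ⟨(a + 1) + t, ht.trans ?_⟩
    rw [run_add, e3, run_dep (c' := c) fun k' h1 _ => hcne k' (by omega), ← run_add]
    exact run_mono (Nat.le_add_left _ _)
  set Y := lm d c (k₀ + (a + 1)) (run d c k₀ st (a + 1)) with hY
  have hQY : Q Y := hQ _ _ (run_al hal _)
  have f1 : lm d c k₀ st = cm d c k₀ st a (ph d (col c k) Y) := by
    rw [lm_shift hr (a + 1), cm_pos hV]
  have f2 : lm d c' k₀ st = cm d c k₀ st a (ph d m Y) := by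
    rw [lm_shift hr' (a + 1), cm_pos hV2, ← hk, hck, e3,
      lm_dep (c' := c) fun k' h1 => hcne k' (by omega),
      cm_dep (c' := c) fun k' _ h2 => hcne k' (by omega)]
  obtain ⟨ε, hε⟩ := cm_sign (c := c) (k₀ := k₀) (st := st) h a
  obtain ⟨g1, g2⟩ := h _ hV.2.1 Y hQY
  obtain ⟨g3, g4⟩ := h _ hV'.2.1 Y hQY
  obtain ⟨g5, g6⟩ := hε _ g1
  obtain ⟨g7, g8⟩ := hε _ g3
  rw [f1, f2]
  refine ⟨g5, g7, ?_⟩
  rw [g6, g8, g2, g4]
  intro h9
  apply hme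
  revert h9
  cases ξ Y <;> cases ε <;> cases me m <;> cases me (col c k) <;> simp

/-! ### Local constancy -/

section ev

variable {e₀ : E}

theorem ev_fst (e₀ : E) (k : ℕ) : ∀ᶠ e in 𝓝 e₀, e.1 k = e₀.1 k := by
  have h : Continuous fun e : E => e.1 k := (continuous_apply k).comp continuous_fst
  exact ((isOpen_discrete {e₀.1 k}).preimage h).mem_nhds rfl

theorem ev_snd (e₀ : E) (k : ℕ) : ∀ᶠ e in 𝓝 e₀, e.2 k = e₀.2 k := by
  have h : Continuous fun e : E => e.2 k := (continuous_apply k).comp continuous_snd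
  exact ((isOpen_discrete {e₀.2 k}).preimage h).mem_nhds rfl

theorem ev_lt {p : E → ℕ → Prop} (N : ℕ) (h : ∀ l < N, ∀ᶠ e in 𝓝 e₀, p e l) :
    ∀ᶠ e in 𝓝 e₀, ∀ l < N, p e l := by
  have h1 := (eventually_all_finset (Finset.range N) (l := 𝓝 e₀) (p := fun l e => p e l)).2
    fun l hl => h l (Finset.mem_range.1 hl)
  exact h1.mono fun e he l hl => he l (Finset.mem_range.2 hl)

theorem ev_col {k : ℕ} (h : Hit e₀.2 k) : ∀ᶠ e in 𝓝 e₀, col e.2 k = col e₀.2 k ∧ Hit e.2 k := by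
  obtain ⟨h1, h2⟩ := col_spec h
  filter_upwards [ev_snd e₀ (Nat.pair k (col e₀.2 k)),
    ev_lt (p := fun e l => e.2 (Nat.pair k l) = e₀.2 (Nat.pair k l)) (col e₀.2 k)
      fun l _ => ev_snd e₀ _] with e he1 he2
  have h3 : e.2 (Nat.pair k (col e₀.2 k)) = true := he1.trans h1
  exact ⟨col_eq h3 fun r' hr' => (he2 r' hr').trans (h2 r' hr'), _, h3⟩

theorem ev_ph {m : ℕ} {y : E → ℕ → ℕ} (hy : ∀ l, ∀ᶠ e in 𝓝 e₀, y e l = y e₀ l) (l : ℕ) :
    ∀ᶠ e in 𝓝 e₀, ph e.1 m (y e) l = ph e₀.1 m (y e₀) l := by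
  filter_upwards [hy (sw (me m) l),
    ev_fst e₀ (Nat.pair (mj m) (Nat.pair (y e₀ (sw (me m) l)) l + 1))] with e h1 h2
  unfold ph vl
  rw [h1, h2]

theorem ev_vl (e₀ : E) (i l : ℕ) : ∀ᶠ e in 𝓝 e₀, vl e.1 i l = vl e₀.1 i l := ev_fst e₀ _

theorem ev_Vd (n i m : ℕ) : ∀ᶠ e in 𝓝 e₀, (Vd e.1 n i m ↔ Vd e₀.1 n i m) := by
  filter_upwards [ev_fst e₀ (Nat.pair (mi m) 0), ev_fst e₀ (Nat.pair (mj m) 0),
    ev_lt (p := fun e l => ph e.1 m (vl e.1 (mi m)) l = ph e₀.1 m (vl e₀.1 (mi m)) l) (n ^ 2)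
      fun l _ => ev_ph (y := fun e => vl e.1 (mi m)) (ev_vl e₀ _) l,
    ev_lt (p := fun e l => vl e.1 i l = vl e₀.1 i l) (n ^ 2) fun l _ => ev_vl e₀ i l]
    with e h1 h2 h3 h4
  unfold Vd tg
  rw [h1, h2]
  refine and_congr_right fun _ => and_congr_right fun _ => forall₂_congr fun l hl => ?_
  rw [h3 l hl, h4 l hl]

theorem ev_run {k₀ : ℕ} {st : ℕ × ℕ} {t : ℕ} (h : ∀ k < k₀ + t, Hit e₀.2 k) :
    ∀ᶠ e in 𝓝 e₀, run e.1 e.2 k₀ st t = run e₀.1 e₀.2 k₀ st t := by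
  induction t with
  | zero => exact Eventually.of_forall fun _ => rfl
  | succ t ih =>
    filter_upwards [ih fun k hk => h k (by omega), ev_col (h (k₀ + t) (by omega)),
      ev_Vd (run e₀.1 e₀.2 k₀ st t).1 (run e₀.1 e₀.2 k₀ st t).2 (col e₀.2 (k₀ + t))] with e h1 h2 h3
    rw [run_succ, run_succ, h1]
    unfold stp
    rw [h2.1]
    by_cases hv : Vd e₀.1 (run e₀.1 e₀.2 k₀ st t).1 (run e₀.1 e₀.2 k₀ st t).2 (col e₀.2 (k₀ + t))
    · rw [if_pos hv, if_pos (h3.2 hv)]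
    · rw [if_neg hv, if_neg fun h => hv (h3.1 h)]

theorem ev_cm {k₀ : ℕ} {st : ℕ × ℕ} {t : ℕ} (h : ∀ k < k₀ + t, Hit e₀.2 k) {y : E → ℕ → ℕ}
    (hy : ∀ l, ∀ᶠ e in 𝓝 e₀, y e l = y e₀ l) (l : ℕ) :
    ∀ᶠ e in 𝓝 e₀, cm e.1 e.2 k₀ st t (y e) l = cm e₀.1 e₀.2 k₀ st t (y e₀) l := by
  induction t generalizing y l with
  | zero => exact hy l
  | succ t ih =>
    have h0 := ev_run (e₀ := e₀) (k₀ := k₀) (st := st) (t := t) fun k hk => h k (by omega)
    by_cases h1 : Vd e₀.1 (run e₀.1 e₀.2 k₀ st t).1 (run e₀.1 e₀.2 k₀ st t).2 (col e₀.2 (k₀ + t))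
    · filter_upwards [h0, ev_col (h (k₀ + t) (by omega)),
        ev_Vd (run e₀.1 e₀.2 k₀ st t).1 (run e₀.1 e₀.2 k₀ st t).2 (col e₀.2 (k₀ + t)),
        ih (fun k hk => h k (by omega)) (y := fun e => ph e.1 (col e₀.2 (k₀ + t)) (y e))
          (ev_ph hy) l] with e g1 g2 g3 g4
      have h2 : Vd e.1 (run e.1 e.2 k₀ st t).1 (run e.1 e.2 k₀ st t).2 (col e.2 (k₀ + t)) := by
        rw [g1, g2.1]
        exact g3.2 h1
      rw [cm_pos h1, cm_pos h2, g2.1]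
      exact g4
    · filter_upwards [h0, ev_col (h (k₀ + t) (by omega)),
        ev_Vd (run e₀.1 e₀.2 k₀ st t).1 (run e₀.1 e₀.2 k₀ st t).2 (col e₀.2 (k₀ + t)),
        ih (fun k hk => h k (by omega)) hy l] with e g1 g2 g3 g4
      have h2 : ¬ Vd e.1 (run e.1 e.2 k₀ st t).1 (run e.1 e.2 k₀ st t).2 (col e.2 (k₀ + t)) := by
        rw [g1, g2.1]
        exact fun h3 => h1 (g3.1 h3)
      rw [cm_neg h1, cm_neg h2]
      exact g4

theorem ev_al (st : ℕ × ℕ) : ∀ᶠ e in 𝓝 e₀, (Al e.1 st ↔ Al e₀.1 st) := by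
  filter_upwards [ev_fst e₀ (Nat.pair st.2 0)] with e h1
  unfold Al tg
  rw [h1]

theorem ev_lm {k₀ : ℕ} {st : ℕ × ℕ} (hh : ∀ k, Hit e₀.2 k)
    (hr : Rch e₀.1 e₀.2 k₀ st) (l : ℕ) :
    ∀ᶠ e in 𝓝 e₀, lm e.1 e.2 k₀ st l = lm e₀.1 e₀.2 k₀ st l := by
  obtain ⟨t, ht⟩ := hr (l + 1)
  have h1 : l < (run e₀.1 e₀.2 k₀ st t).1 ^ 2 :=
    (lt_succ_sq l).trans_le (Nat.pow_le_pow_left ht 2)
  filter_upwards [ev_run (st := st) (t := t) (k₀ := k₀) fun k _ => hh k,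
    ev_cm (k₀ := k₀) (st := st) (t := t) (fun k _ => hh k)
      (y := fun e => vl e.1 (run e₀.1 e₀.2 k₀ st t).2) (ev_vl e₀ _) l] with e g1 g2
  have h2 : l < (run e.1 e.2 k₀ st t).1 ^ 2 := by rw [g1]; exact h1
  rw [lm_eq h1, lm_eq h2, g1]
  exact g2

end ev

/-! ### Density -/

section dens

/-- The bits of `c` below `N`, ones in the other places of the first `K` columns, and then
columns with one bit, given by `μ`. -/
def cc (c : ℕ → Bool) (N K : ℕ) (μ : ℕ → ℕ) (b : ℕ) : Bool :=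
  if b < N then c b else if b.unpair.1 < K then true else decide (b.unpair.2 = μ b.unpair.1)

variable {c : ℕ → Bool} {N K : ℕ} {μ : ℕ → ℕ}

theorem cc_lt {b : ℕ} (h : b < N) : cc c N K μ b = c b := if_pos h

theorem cc_low {μ' : ℕ → ℕ} {k : ℕ} (h : k < K) (r : ℕ) :
    cc c N K μ (Nat.pair k r) = cc c N K μ' (Nat.pair k r) := by
  unfold cc
  simp [h]

theorem cc_high (hNK : N ≤ K) {k : ℕ} (h : K ≤ k) (r : ℕ) :
    cc c N K μ (Nat.pair k r) = decide (r = μ k) := by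
  unfold cc
  have h1 : ¬ Nat.pair k r < N := by
    have := Nat.left_le_pair k r
    omega
  simp [h1, not_lt.2 h]

theorem cc_hit (hNK : N ≤ K) (k : ℕ) : Hit (cc c N K μ) k := by
  by_cases h : k < K
  · refine ⟨N, ?_⟩
    have h1 : ¬ Nat.pair k N < N := by
      have := Nat.right_le_pair k N
      omega
    unfold cc
    simp [h1, h]
  · exact ⟨μ k, by rw [cc_high hNK (not_lt.1 h)]; simp⟩

theorem cc_col (hNK : N ≤ K) {k : ℕ} (h : K ≤ k) : col (cc c N K μ) k = μ k :=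
  col_eq (by rw [cc_high hNK h]; simp) fun r' hr' => by
    rw [cc_high hNK h]
    simp [hr'.ne]

theorem cc_col_low {μ' : ℕ → ℕ} {k : ℕ} (h : k < K) :
    col (cc c N K μ) k = col (cc c N K μ') k := (col_congr fun r => cc_low h r).1

open Classical in
/-- A possible move with sign `false`. -/
noncomputable def nx (d : ℕ → ℕ) (st : ℕ × ℕ) : ℕ :=
  if h : ∃ m, Vd d st.1 st.2 m then h.choose else 0

theorem nx_spec {d : ℕ → ℕ} (hd : Suit d) {st : ℕ × ℕ} (h : Al d st) :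
    Vd d st.1 st.2 (nx d st) := by
  obtain ⟨m, -, h1, -⟩ := hd st h
  have h2 : ∃ m, Vd d st.1 st.2 m := ⟨m, h1⟩
  unfold nx
  rw [dif_pos h2]
  exact h2.choose_spec

/-- The path of possible moves. -/
noncomputable def pth (d : ℕ → ℕ) (st : ℕ × ℕ) : ℕ → ℕ × ℕ
  | 0 => st
  | t + 1 => ((pth d st t).1 + 1, mi (nx d (pth d st t)))

theorem pth_al {d : ℕ → ℕ} (hd : Suit d) {st : ℕ × ℕ} (h : Al d st) (t : ℕ) :
    Al d (pth d st t) := by
  induction t with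
  | zero => exact h
  | succ t ih => exact (nx_spec hd ih).1

theorem pth_fst (d : ℕ → ℕ) (st : ℕ × ℕ) (t : ℕ) : (pth d st t).1 = st.1 + t := by
  induction t with
  | zero => rfl
  | succ t ih =>
    change (pth d st t).1 + 1 = _
    rw [ih, add_assoc]

theorem dense_rch {d : ℕ → ℕ} (hd : Suit d) (c : ℕ → Bool) (N k₀ : ℕ) {st : ℕ × ℕ}
    (hst : Al d st) (ℓ : ℕ) : ∃ c', (∀ b < N, c' b = c b) ∧ (∀ k, Hit c' k) ∧
      ∃ t, ℓ ≤ (run d c' k₀ st t).1 := by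
  set K := max N k₀ with hK
  have hNK : N ≤ K := le_max_left _ _
  obtain ⟨u, hu⟩ : ∃ u, K = k₀ + u := ⟨K - k₀, by omega⟩
  set st₁ := run d (cc c N K fun _ => 0) k₀ st u with hst₁
  have hal : Al d st₁ := run_al hst u
  set μ : ℕ → ℕ := fun k => nx d (pth d st₁ (k - K)) with hμ
  refine ⟨cc c N K μ, fun b hb => cc_lt hb, cc_hit hNK, u + ℓ, ?_⟩
  have h1 : ∀ s, run d (cc c N K μ) k₀ st (u + s) = pth d st₁ s := by
    intro s
    induction s with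
    | zero => exact run_dep fun k _ hk => cc_col_low (by omega)
    | succ s ih =>
      have h2 : col (cc c N K μ) (k₀ + (u + s)) = nx d (pth d st₁ s) := by
        rw [cc_col hNK (by omega), hμ]
        simp only
        rw [show k₀ + (u + s) - K = s by omega]
      have h3 : Vd d (run d (cc c N K μ) k₀ st (u + s)).1 (run d (cc c N K μ) k₀ st (u + s)).2
          (col (cc c N K μ) (k₀ + (u + s))) := by
        rw [ih, h2]
        exact nx_spec hd (pth_al hd hal s)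
      rw [← add_assoc, run_pos h3, ih, h2]
      rfl
  rw [h1, pth_fst]
  omega

theorem dense_good {d : ℕ → ℕ} (hd : Suit d) (c : ℕ → Bool) (N k₀ : ℕ) {st : ℕ × ℕ}
    (hst : Al d st) (N₀ : ℕ) : ∃ c', (∀ b < N, c' b = c b) ∧ (∀ k, Hit c' k) ∧
      ∃ s : Finset ℕ, (∀ b ∈ s, N₀ ≤ b) ∧ Good k₀ st (d, c') s := by
  set K := max (max N N₀) k₀ with hK
  have hNK : N ≤ K := (le_max_left _ _).trans (le_max_left _ _)
  obtain ⟨u, hu⟩ : ∃ u, K = k₀ + u := ⟨K - k₀, by omega⟩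
  set st₁ := run d (cc c N K fun _ => 0) k₀ st u with hst₁
  have hal : Al d st₁ := run_al hst u
  obtain ⟨m₀, m₁, h1, h2, h3, h4, h5⟩ := hd st₁ hal
  have hne : m₀ ≠ m₁ := fun h => by rw [h, h5] at h4; exact Bool.noConfusion h4
  -- the larger and the smaller move
  obtain ⟨mM, mm, hlt, g1, g2, g3, g4⟩ : ∃ mM mm, mm < mM ∧ Vd d st₁.1 st₁.2 mM ∧
      Vd d st₁.1 st₁.2 mm ∧ mi mm = mi mM ∧ me mm ≠ me mM := by
    rcases lt_or_gt_of_ne hne with h | h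
    · exact ⟨m₁, m₀, h, h2, h1, h3, by rw [h4, h5]; exact Bool.noConfusion⟩
    · exact ⟨m₀, m₁, h, h1, h2, h3.symm, by rw [h4, h5]; exact Bool.noConfusion⟩
  refine ⟨cc c N K fun _ => mM, fun b hb => cc_lt hb, cc_hit hNK, {Nat.pair K mm}, ?_,
    u, mm, ?_⟩
  · intro b hb
    rw [Finset.mem_singleton] at hb
    subst hb
    have := Nat.left_le_pair K mm
    have : N₀ ≤ K := (le_max_right _ _).trans (le_max_left _ _)
    omega
  · have e1 : run d (cc c N K fun _ => mM) k₀ st u = st₁ :=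
      run_dep fun k _ hk => cc_col_low (by omega)
    have e2 : col (cc c N K fun _ => mM) (k₀ + u) = mM := cc_col hNK (by omega)
    simp only
    rw [e1, e2, hu]
    exact ⟨hlt, rfl, fun k _ => by rw [← hu]; exact cc_hit hNK k, g1, g2, g3, g4⟩

end dens

/-! ### The sets and the functions for the model -/

/-- The index set. -/
abbrev Idx : Type := ℕ × ℕ × ℕ × ℕ × Bool

/-- The generic conditions. -/
def OO (L : Idx) : Set E := match L with
  | (k₀, n, i, ℓ, true) => {e | (∀ k, k < ℓ → Hit e.2 k) ∧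
      (Al e.1 (n, i) → ∃ t, ℓ ≤ (run e.1 e.2 k₀ (n, i) t).1)}
  | (k₀, n, i, N, false) => {e | Al e.1 (n, i) →
      ∃ s : Finset ℕ, (∀ b ∈ s, N ≤ b) ∧ Good k₀ (n, i) e s}

theorem OO_nhds {d : ℕ → ℕ} (hd : Suit d) (L : Idx) (c : ℕ → Bool) (N : ℕ) :
    ∃ c', (∀ b < N, c' b = c b) ∧ OO L ∈ 𝓝 ((d, c') : E) := by
  obtain ⟨k₀, n, i, ℓ, b⟩ := L
  by_cases hal : Al d (n, i)
  · cases b with
    | true =>
      obtain ⟨c', h1, h2, t, h3⟩ := dense_rch hd c N k₀ hal ℓ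
      refine ⟨c', h1, ?_⟩
      change ∀ᶠ e in 𝓝 ((d, c') : E), (∀ k, k < ℓ → Hit e.2 k) ∧
        (Al e.1 (n, i) → ∃ t, ℓ ≤ (run e.1 e.2 k₀ (n, i) t).1)
      filter_upwards [ev_run (e₀ := (d, c')) (k₀ := k₀) (st := (n, i)) (t := t) fun k _ => h2 k,
        ev_lt (e₀ := (d, c')) (p := fun e k => Hit e.2 k) ℓ
          fun k _ => (ev_col (h2 k)).mono fun e he => he.2] with e g1 g2
      exact ⟨g2, fun _ => ⟨t, by rw [g1]; exact h3⟩⟩
    | false =>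
      obtain ⟨c', h1, h2, s, h3, a, m, h4, h5, h6, h7, h8, h9, h10⟩ :=
        dense_good hd c N k₀ hal ℓ
      refine ⟨c', h1, ?_⟩
      change ∀ᶠ e in 𝓝 ((d, c') : E), Al e.1 (n, i) →
        ∃ s : Finset ℕ, (∀ b ∈ s, ℓ ≤ b) ∧ Good k₀ (n, i) e s
      filter_upwards [ev_run (e₀ := (d, c')) (k₀ := k₀) (st := (n, i)) (t := a) fun k _ => h2 k,
        ev_lt (e₀ := (d, c')) (p := fun e k => Hit e.2 k) (k₀ + a + 1)
          (fun k _ => (ev_col (h2 k)).mono fun e he => he.2),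
        ev_col (e₀ := (d, c')) (h2 (k₀ + a)),
        ev_Vd (e₀ := (d, c')) (run d c' k₀ (n, i) a).1 (run d c' k₀ (n, i) a).2 (col c' (k₀ + a)),
        ev_Vd (e₀ := (d, c')) (run d c' k₀ (n, i) a).1 (run d c' k₀ (n, i) a).2 m]
        with e g1 g2 g3 g4 g5 _
      refine ⟨s, h3, a, m, ?_, h5, fun k hk => g2 k (by omega), ?_, ?_, ?_, ?_⟩
      · rw [g3.1]; exact h4
      · rw [g1, g3.1]; exact g4.2 h7
      · rw [g1]; exact g5.2 h8
      · rw [g3.1]; exact h9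
      · rw [g3.1]; exact h10
  · refine ⟨cc c N N fun _ => 0, fun b hb => cc_lt hb, ?_⟩
    have hct : ∀ k, Hit (cc c N N fun _ => 0) k := cc_hit le_rfl
    have h1 := ev_al (e₀ := (d, cc c N N fun _ => 0)) (n, i)
    cases b with
    | true =>
      change ∀ᶠ e in 𝓝 ((d, cc c N N fun _ => 0) : E), (∀ k, k < ℓ → Hit e.2 k) ∧
        (Al e.1 (n, i) → ∃ t, ℓ ≤ (run e.1 e.2 k₀ (n, i) t).1)
      filter_upwards [h1, ev_lt (e₀ := (d, cc c N N fun _ => 0)) (p := fun e k => Hit e.2 k) ℓ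
          fun k _ => (ev_col (e₀ := (d, cc c N N fun _ => 0)) (hct k)).mono
            fun e he => he.2] with e g1 g2
      exact ⟨g2, fun h => absurd (g1.1 h) hal⟩
    | false =>
      change ∀ᶠ e in 𝓝 ((d, cc c N N fun _ => 0) : E), Al e.1 (n, i) →
        ∃ s : Finset ℕ, (∀ b ∈ s, ℓ ≤ b) ∧ Good k₀ (n, i) e s
      filter_upwards [h1] with e g1 h
      exact absurd (g1.1 h) hal

/-- The sequence with the first value `o` (if it is given), followed by `y`. -/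
def cs (o : Option ℕ) (y : ℕ → ℕ) : ℕ → ℕ := match o with
  | none => y
  | some v => fun l => Nat.casesOn l v y

open Classical in
/-- The functions. -/
noncomputable def FF (q : Option ℕ × ℕ × ℕ × ℕ) (e : E) : ℕ → ℕ :=
  cs q.1 fun l => if Al e.1 (q.2.2.1, q.2.2.2) then lm e.1 e.2 q.2.1 (q.2.2.1, q.2.2.2) l else 0

theorem FF_ev {d : ℕ → ℕ} {c : ℕ → Bool} (h : ∀ L, (d, c) ∈ OO L)
    (q : Option ℕ × ℕ × ℕ × ℕ) (l : ℕ) : ∀ᶠ e in 𝓝 ((d, c) : E), FF q e l = FF q (d, c) l := by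
  classical
  obtain ⟨o, k₀, n, i⟩ := q
  have hh : ∀ k, Hit c k := fun k => (h (0, 0, 0, k + 1, true)).1 k (Nat.lt_succ_self k)
  have hr : Al d (n, i) → Rch d c k₀ (n, i) := fun hal N => (h (k₀, n, i, N, true)).2 hal
  have key : ∀ l, ∀ᶠ e in 𝓝 ((d, c) : E),
      (if Al e.1 (n, i) then lm e.1 e.2 k₀ (n, i) l else 0) =
        if Al d (n, i) then lm d c k₀ (n, i) l else 0 := by
    intro l
    have h1 := ev_al (e₀ := (d, c)) (n, i)
    by_cases hal : Al d (n, i)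
    · filter_upwards [h1, ev_lm (e₀ := (d, c)) hh (hr hal) l] with e g1 g2
      rw [if_pos hal, if_pos (g1.2 hal)]
      exact g2
    · filter_upwards [h1] with e g1
      rw [if_neg hal, if_neg fun h => hal (g1.1 h)]
  cases o with
  | none => exact key l
  | some v =>
    cases l with
    | zero => exact Eventually.of_forall fun _ => rfl
    | succ l => exact key l

theorem rch_of {d : ℕ → ℕ} {c : ℕ → Bool} (h : ∀ L, (d, c) ∈ OO L) {k₀ : ℕ} {st : ℕ × ℕ}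
    (hal : Al d st) : Rch d c k₀ st := fun N => (h (k₀, st.1, st.2, N, true)).2 hal

theorem good_of {d : ℕ → ℕ} {c : ℕ → Bool} (h : ∀ L, (d, c) ∈ OO L) {k₀ : ℕ} {st : ℕ × ℕ}
    (hal : Al d st) (N : ℕ) : ∃ s : Finset ℕ, (∀ b ∈ s, N ≤ b) ∧ Good k₀ st (d, c) s :=
  h (k₀, st.1, st.2, N, false) hal

/-- **The model for suitable data.** -/
theorem model2 {κ : Type} [Countable κ] (z : κ → ℕ → ℕ) :
    ∃ M : Set ZFSet.{0}, M.Countable ∧ W868.IsZF M ∧ W910.SY.DC M ∧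
      (∀ k, W910.BG.code (z k) ∈ M) ∧
      ∀ T ∈ M, ∀ d, W910.BG.code d ∈ M → Suit d → ∃ c : ℕ → Bool, (∀ L, (d, c) ∈ OO L) ∧
        (∀ q, W910.BG.code (FF q (d, c)) ∈ M) ∧
        (∀ q s, W910.BG.code (FF q (d, flp s c)) ∈ M) ∧
        ∀ q, W910.BG.code (FF q (d, c)) ∈ T → ∃ N, ∀ s : Finset ℕ, (∀ b ∈ s, N ≤ b) →
          W910.BG.code (FF q (d, flp s c)) ∈ T := by
  obtain ⟨M, h1, h2, h3, h4, h5⟩ := model (ι := Option ℕ × ℕ × ℕ × ℕ) (Λ := Idx) FF Suit OO z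
    (fun d c _ h q l => FF_ev h q l) (fun d hd L c N => OO_nhds hd L c N)
  refine ⟨M, h1, h2, h3, h4, fun T hT d hd hS => ?_⟩
  obtain ⟨c, g1, g2, g3⟩ := h5 T hT d hd hS
  have e : flp ∅ c = c := by funext n; simp [flp]
  refine ⟨c, fun L => ?_, fun q => ?_, g2, g3⟩
  · have := g1 ∅ L
    rwa [e] at this
  · have := g2 q ∅
    rwa [e] at this

end Pool.Agent.L5helper55.OC
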