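import Pool.Agent.Y518.CC.Pub

/-!
# Function clones, and function clones in a transitive model of ZF: the definitions

`IsZF M`, `DC M` and `nat n` are from the imported file: `M` is a transitive model of ZF; `M`
satisfies the axiom of dependent choice; the natural number `n` as a set. Everything takes place
inside the type `ZFSet.{0}` of all sets; a set (in the sense of Mathlib) `M : Set ZFSet.{0}` is
viewed as the structure `(M, ∈)`.

First come function clones on a type `A` and clone homomorphisms, in the usual sense. Then it is
said what it means that a clone on (the type of the elements of) a set `a`, or a homomorphism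
between two such clones, is an element of the model `M`, and that a clone is closed in `M`.
-/

set_option autoImplicit false

namespace Pool.Agent.L5helper55.OC.Pub

open ZFSet (pair)
open Pool.Agent.Y518.CC.Pub (nat)

universe u v

/-! ### Clones -/

/-- A function clone on `A`: for every `n` a set `ops n` of operations of arity `n + 1` on `A`,
such that the projections are members and the members are closed under composition. -/
structure Clone (A : Type u) where
  /-- the members of arity `n + 1` -/
  ops : ∀ n : ℕ, Set ((Fin (n + 1) → A) → A)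
  proj : ∀ (n : ℕ) (i : Fin (n + 1)), (fun x => x i) ∈ ops n
  comp : ∀ (m n : ℕ) (f : (Fin (m + 1) → A) → A) (g : Fin (m + 1) → (Fin (n + 1) → A) → A),
    f ∈ ops m → (∀ j, g j ∈ ops n) → (fun x => f fun j => g j x) ∈ ops n

/-- The clone `1` of the projections on `B` (it is used for sets `B` with two elements). -/
def one (B : Type v) : Clone B where
  ops n := {f | ∃ i, f = fun x => x i}
  proj _ i := ⟨i, rfl⟩
  comp := by
    rintro m n _ g ⟨i, rfl⟩ hg
    obtain ⟨k, hk⟩ := hg i
    exact ⟨k, hk⟩

/-- `u` is an invertible unary member of the clone `C`: it has an inverse in `C`. -/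
def Clone.Invertible {A : Type u} (C : Clone A) (u : (Fin 1 → A) → A) : Prop :=
  u ∈ C.ops 0 ∧ ∃ v ∈ C.ops 0, ∀ z, u (fun _ => v fun _ => z) = z ∧ v (fun _ => u fun _ => z) = z

/-- The clone `C` is oligomorphic: for every `n` there is a finite set `S` of `n`-tuples such that
every `n`-tuple is the image of an element of `S` under an invertible unary member of `C`. -/
def Clone.Oligomorphic {A : Type u} (C : Clone A) : Prop :=
  ∀ n : ℕ, ∃ S : Set (Fin n → A), S.Finite ∧
    ∀ x : Fin n → A, ∃ x' ∈ S, ∃ u, C.Invertible u ∧ ∀ i, u (fun _ => x' i) = x i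

/-- A clone homomorphism from `C` to `D`: it preserves arities, maps projections to the
corresponding projections, and commutes with composition. -/
structure Hom {A : Type u} {B : Type v} (C : Clone A) (D : Clone B) where
  /-- the map on the members of arity `n + 1` -/
  map : ∀ n : ℕ, C.ops n → D.ops n
  proj : ∀ (n : ℕ) (i : Fin (n + 1)), (map n ⟨fun x => x i, C.proj n i⟩).1 = fun y => y i
  comp : ∀ (m n : ℕ) (f : C.ops m) (g : Fin (m + 1) → C.ops n),
    (map n ⟨fun x => f.1 fun j => (g j).1 x, C.comp m n f.1 (fun j => (g j).1) f.2
      fun j => (g j).2⟩).1 = fun y => (map m f).1 fun j => (map n (g j)).1 y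

/-- The homomorphism `h` is continuous (for the topologies of pointwise convergence): for every
member `f` of `C` and every argument `y` of its image there is a finite set `s` of arguments of
`f` such that for all members `g` of `C` of the same arity that agree with `f` on `s`, the images
of `g` and `f` agree at `y`. -/
def Hom.Continuous {A : Type u} {B : Type v} {C : Clone A} {D : Clone B} (h : Hom C D) : Prop :=
  ∀ (n : ℕ) (f : C.ops n) (y : Fin (n + 1) → B), ∃ s : Finset (Fin (n + 1) → A),
    ∀ g : C.ops n, (∀ x ∈ s, g.1 x = f.1 x) → (h.map n g).1 y = (h.map n f).1 y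

/-! ### Clones in a transitive model -/

/-- The type of the elements of the set `a`. -/
abbrev El (a : ZFSet.{0}) : Type 1 := {x : ZFSet.{0} // x ∈ a}

/-- The `k`-tuple `x` as a set: the function from `k = {0, ..., k - 1}`, as a set of pairs. -/
noncomputable def tup {k : ℕ} (x : Fin k → ZFSet.{0}) : ZFSet.{0} :=
  ZFSet.range fun i : Fin k => pair (nat i) (x i)

/-- The set `F` is the graph of the operation `f` on the set `a`. -/
def IsGraph {a : ZFSet.{0}} {k : ℕ} (F : ZFSet.{0}) (f : (Fin k → El a) → El a) : Prop :=
  ∀ z, z ∈ F ↔ ∃ x : Fin k → El a, z = pair (tup fun i => (x i).1) (f x).1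

/-- In the transitive class `M`, the set `a` is countably infinite: some bijection from the
natural numbers to `a` is in `M`. -/
def CountablyInfiniteIn (M : Set ZFSet.{0}) (a : ZFSet.{0}) : Prop :=
  ∃ e : ℕ → El a, Function.Bijective e ∧ ∃ G ∈ M, ∀ z, z ∈ G ↔ ∃ n, z = pair (nat n) (e n).1

/-- The clone `C` on the set `a` is in `M`: the set of (the graphs of) its members is in `M`. -/
def Clone.In {a : ZFSet.{0}} (C : Clone (El a)) (M : Set ZFSet.{0}) : Prop :=
  ∃ c ∈ M, ∀ F, F ∈ c ↔ ∃ n, ∃ f ∈ C.ops n, IsGraph F f

/-- The clone `C` on the set `a` is closed in the sense of `M`: every operation `f` in `M` that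
agrees on every finite set of arguments with some member of `C` is a member of `C`. -/
def Clone.ClosedIn {a : ZFSet.{0}} (C : Clone (El a)) (M : Set ZFSet.{0}) : Prop :=
  ∀ (n : ℕ) (f : (Fin (n + 1) → El a) → El a), (∃ F ∈ M, IsGraph F f) →
    (∀ s : Finset (Fin (n + 1) → El a), ∃ g ∈ C.ops n, ∀ x ∈ s, g x = f x) → f ∈ C.ops n

/-- The homomorphism `h` is in `M`: the set of the pairs of (the graph of) a member of `C` and (the
graph of) its image is in `M`. -/
def Hom.In {a b : ZFSet.{0}} {C : Clone (El a)} {D : Clone (El b)} (h : Hom C D)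
    (M : Set ZFSet.{0}) : Prop :=
  ∃ c ∈ M, ∀ z, z ∈ c ↔ ∃ (n : ℕ) (f : C.ops n) (F F' : ZFSet.{0}), IsGraph F f.1 ∧
    IsGraph F' (h.map n f).1 ∧ z = pair F F'

end Pool.Agent.L5helper55.OC.Pub
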