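import Pool.Agent.L5helper55.OC.Int2
import Pool.Agent.L5helper55.OC.Pub
import Pool.Agent.Y518.CC.PubThm

/-!
# A model in which the homomorphisms to the clone of projections are continuous
-/

set_option autoImplicit false
set_option linter.unusedSectionVars false
set_option linter.unreachableTactic false
set_option linter.unusedTactic false

namespace Pool.Agent.L5helper55.OC

open Pool.Agent.W868 Pool.Agent.W910.SY
open Pool.Agent.W910.BG (code mem_code code_injective isFunc_code)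
open Pub (Clone one Hom El tup IsGraph CountablyInfiniteIn)
open ZFSet (pair)

/-! ### Tuples and graphs -/

theorem mem_tup {k : ℕ} {x : Fin k → ZFSet.{0}} {z : ZFSet.{0}} :
    z ∈ tup x ↔ ∃ i : Fin k, z = pair (nat i) (x i) := by
  unfold tup
  rw [ZFSet.mem_range]
  refine exists_congr fun i => ?_
  rw [Pool.Agent.Y518.CC.Pub.nat_eq]
  exact eq_comm

theorem tup_sub {k k' : ℕ} {x : Fin k → ZFSet.{0}} {x' : Fin k' → ZFSet.{0}}
    (h : tup x = tup x') (i : Fin k) : ∃ j : Fin k', (i : ℕ) = j ∧ x i = x' j := by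
  have h1 : pair (nat i) (x i) ∈ tup x' := h ▸ mem_tup.2 ⟨i, rfl⟩
  obtain ⟨j, hj⟩ := mem_tup.1 h1
  obtain ⟨h2, h3⟩ := ZFSet.pair_inj.1 hj
  exact ⟨j, nat_injective h2, h3⟩

theorem tup_len {k k' : ℕ} {x : Fin k → ZFSet.{0}} {x' : Fin k' → ZFSet.{0}}
    (h : tup x = tup x') : k = k' := by
  have key : ∀ {k k' : ℕ} {x : Fin k → ZFSet.{0}} {x' : Fin k' → ZFSet.{0}},
      tup x = tup x' → k ≤ k' := by
    intro k k' x x' h
    by_contra hlt
    obtain ⟨j, hj, -⟩ := tup_sub h ⟨k', by omega⟩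
    have := j.2
    simp only at hj
    omega
  exact le_antisymm (key h) (key h.symm)

theorem tup_inj {k : ℕ} {x x' : Fin k → ZFSet.{0}} (h : tup x = tup x') : x = x' := by
  funext i
  obtain ⟨j, hj, h1⟩ := tup_sub h i
  rw [h1, Fin.ext hj]

theorem exists_graph {a : ZFSet.{0}} {k : ℕ} (f : (Fin k → El a) → El a) :
    ∃ F, IsGraph F f := by
  have : Small.{0} (El a) := inferInstanceAs (Small.{0} {x // x ∈ a})
  refine ⟨ZFSet.range fun x : Fin k → El a => pair (tup fun i => (x i).1) (f x).1, fun z => ?_⟩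
  rw [ZFSet.mem_range]
  exact exists_congr fun x => eq_comm

theorem graph_ext {a : ZFSet.{0}} {k : ℕ} {f : (Fin k → El a) → El a} {F F' : ZFSet.{0}}
    (h : IsGraph F f) (h' : IsGraph F' f) : F = F' := by
  ext z
  rw [h z, h' z]

theorem graph_app {a : ZFSet.{0}} {k : ℕ} {f : (Fin k → El a) → El a} {F : ZFSet.{0}}
    (h : IsGraph F f) {x : Fin k → El a} {v : El a} :
    pair (tup fun i => (x i).1) v.1 ∈ F ↔ f x = v := by
  rw [h]
  constructor
  · rintro ⟨x', h1⟩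
    obtain ⟨h2, h3⟩ := ZFSet.pair_inj.1 h1
    have h4 : x = x' := by
      funext i
      exact Subtype.ext (congrFun (tup_inj h2) i)
    rw [h4]
    exact Subtype.ext h3.symm
  · rintro rfl
    exact ⟨x, rfl⟩

theorem graph_inj {a : ZFSet.{0}} {k : ℕ} {f f' : (Fin k → El a) → El a} {F : ZFSet.{0}}
    (h : IsGraph F f) (h' : IsGraph F f') : f = f' := by
  funext x
  exact ((graph_app h').1 ((graph_app h).2 rfl)).symm

theorem graph_len {a : ZFSet.{0}} [Nonempty (El a)] {k k' : ℕ} {f : (Fin k → El a) → El a}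
    {f' : (Fin k' → El a) → El a} {F : ZFSet.{0}} (h : IsGraph F f) (h' : IsGraph F f') :
    k = k' := by
  obtain ⟨c⟩ := ‹Nonempty (El a)›
  obtain ⟨x', hx'⟩ := (h' _).1 ((h _).2 ⟨fun _ => c, rfl⟩)
  exact tup_len (ZFSet.pair_inj.1 hx').1

/-! ### Transport to the natural numbers -/

section lift

variable {a : ZFSet.{0}} (E : ℕ ≃ El a)

/-- The operation on `a` given by an operation on the natural numbers. -/
def lift {k : ℕ} (f : (Fin k → ℕ) → ℕ) : (Fin k → El a) → El a := fun x =>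
  E (f fun j => E.symm (x j))

/-- The operation on the natural numbers given by an operation on `a`. -/
def unlift {k : ℕ} (f : (Fin k → El a) → El a) : (Fin k → ℕ) → ℕ := fun x =>
  E.symm (f fun j => E (x j))

theorem lift_unlift {k : ℕ} (f : (Fin k → El a) → El a) : lift E (unlift E f) = f := by
  funext x
  simp [lift, unlift]

/-- The tuple of elements of `a` given by a tuple of natural numbers. -/
noncomputable def te {k : ℕ} (x : Fin k → ℕ) : ZFSet.{0} := tup fun i => (E (x i)).1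

theorem te_inj {k : ℕ} : Function.Injective (te E : (Fin k → ℕ) → ZFSet.{0}) := by
  intro x x' h
  funext i
  exact E.injective (Subtype.ext (congrFun (tup_inj h) i))

theorem graph_lift {k : ℕ} {f : (Fin k → ℕ) → ℕ} {F : ZFSet.{0}} :
    IsGraph F (lift E f) ↔ ∀ z, z ∈ F ↔ ∃ x : Fin k → ℕ, z = pair (te E x) (E (f x)).1 := by
  unfold IsGraph
  refine forall_congr' fun z => iff_congr Iff.rfl ?_
  constructor
  · rintro ⟨x, rfl⟩
    exact ⟨fun j => E.symm (x j), by simp [te, lift]⟩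
  · rintro ⟨x, rfl⟩
    exact ⟨fun j => E (x j), by simp [te, lift]⟩

theorem graph_lift_app {k : ℕ} {f : (Fin k → El a) → El a} {F : ZFSet.{0}}
    (h : IsGraph F f) {x : Fin k → ℕ} {v : ℕ} :
    pair (te E x) (E v).1 ∈ F ↔ unlift E f x = v := by
  unfold te unlift
  rw [graph_app h, E.symm_apply_eq]

end lift

/-! ### The homomorphism -/

section hom

variable {a b : ZFSet.{0}} (E : ℕ ≃ El a) {C : Clone (El a)} (h : Hom C (one (El b)))

/-- The index of the projection that is the value of the homomorphism. -/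
def Ix (n : ℕ) (f : (Fin (n + 1) → ℕ) → ℕ) (i : Fin (n + 1)) : Prop :=
  ∃ hf : lift E f ∈ C.ops n, (h.map n ⟨lift E f, hf⟩).1 = fun y => y i

theorem map_congr {n : ℕ} {f g : (Fin (n + 1) → El a) → El a} (hf : f ∈ C.ops n)
    (hg : g ∈ C.ops n) (e : f = g) : (h.map n ⟨f, hf⟩).1 = (h.map n ⟨g, hg⟩).1 := by
  subst e
  rfl

theorem ix_ex {n : ℕ} {f : (Fin (n + 1) → ℕ) → ℕ} (hf : lift E f ∈ C.ops n) :
    ∃ i, Ix E h n f i := by
  obtain ⟨i, hi⟩ := (h.map n ⟨lift E f, hf⟩).2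
  exact ⟨i, hf, hi⟩

theorem isHom1 (hb : ∃ u v, u ≠ v ∧ b = {u, v}) (hol : C.Oligomorphic) (hdc : ¬ h.Continuous) :
    IsHom1 (Ix E h) where
  proj n i := by
    have e : lift E (fun x : Fin (n + 1) → ℕ => x i) = fun x => x i := by
      funext x
      simp [lift]
    have h1 : lift E (fun x : Fin (n + 1) → ℕ => x i) ∈ C.ops n := by
      rw [e]
      exact C.proj n i
    exact ⟨h1, (map_congr h h1 (C.proj n i) e).trans (h.proj n i)⟩
  comp m n f i g k hf hg := by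
    obtain ⟨hf1, hf2⟩ := hf
    choose hg1 hg2 using hg
    have e : lift E (fun x => f fun j => g j x) = fun x => lift E f fun j => lift E (g j) x := by
      funext x
      simp [lift]
    have h2 := C.comp m n (lift E f) (fun j => lift E (g j)) hf1 hg1
    have h1 : lift E (fun x => f fun j => g j x) ∈ C.ops n := by
      rw [e]
      exact h2
    refine ⟨h1, (map_congr h h1 h2 e).trans ?_⟩
    have h3 := h.comp m n ⟨lift E f, hf1⟩ fun j => ⟨lift E (g j), hg1 j⟩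
    refine h3.trans ?_
    funext y
    rw [hf2]
    simp only
    rw [hg2]
  uniq n f i j hi hj := by
    obtain ⟨u, v, huv, rfl⟩ := hb
    obtain ⟨hi0, hi⟩ := hi
    obtain ⟨hj0, hj⟩ := hj
    have hj := hi.symm.trans hj
    have hu : u ∈ ({u, v} : ZFSet.{0}) := ZFSet.mem_pair.2 (Or.inl rfl)
    have hv : v ∈ ({u, v} : ZFSet.{0}) := ZFSet.mem_pair.2 (Or.inr rfl)
    have h1 := congrFun hj fun l => if l = i then (⟨u, hu⟩ : El {u, v}) else ⟨v, hv⟩
    simp only [if_pos] at h1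
    by_contra hij
    rw [if_neg fun h => hij h.symm] at h1
    exact huv (congrArg Subtype.val h1)
  olig n := by
    obtain ⟨S, hS, h1⟩ := hol n
    refine ⟨(fun x i => E.symm (x i)) '' S, hS.image _, fun x => ?_⟩
    obtain ⟨x', hx', u, ⟨hu, v, hv, huv⟩, h2⟩ := h1 fun i => E (x i)
    have key : ∀ u ∈ C.ops 0, Ix E h 0 (unlift E u) 0 := by
      intro u hu
      have h3 : lift E (unlift E u) ∈ C.ops 0 := by
        rw [lift_unlift]
        exact hu
      obtain ⟨i, hi⟩ := ix_ex E h h3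
      have hi0 : i = 0 := Fin.ext (by omega)
      rwa [hi0] at hi
    refine ⟨_, ⟨x', hx', rfl⟩, _, _, key u hu, key v hv, fun z => ?_, fun z => ?_, fun i => ?_⟩
    · simp only [unlift, E.apply_symm_apply]
      rw [(huv (E z)).1, E.symm_apply_apply]
    · simp only [unlift, E.apply_symm_apply]
      rw [(huv (E z)).2, E.symm_apply_apply]
    · simp only [unlift, E.apply_symm_apply]
      rw [h2 i, E.symm_apply_apply]
  disc := by
    classical
    unfold Hom.Continuous at hdc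
    push Not at hdc
    obtain ⟨n, f, y, h1⟩ := hdc
    have key : ∀ f : C.ops n, ∃ i, Ix E h n (unlift E f.1) i ∧ (h.map n f).1 y = y i := by
      intro f
      have h3 : lift E (unlift E f.1) ∈ C.ops n := by
        rw [lift_unlift]
        exact f.2
      obtain ⟨i, hi, hi'⟩ := ix_ex E h h3
      refine ⟨i, ⟨hi, hi'⟩, ?_⟩
      have h4 := map_congr h hi f.2 (lift_unlift E f.1)
      have h5 : (⟨f.1, f.2⟩ : C.ops n) = f := rfl
      rw [h5] at h4
      rw [← h4, hi']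
    obtain ⟨i, hi, hi'⟩ := key f
    refine ⟨n, _, i, hi, fun s => ?_⟩
    obtain ⟨g, hg1, hg2⟩ := h1 (s.image fun x j => E (x j))
    obtain ⟨j, hj, hj'⟩ := key g
    refine ⟨_, j, fun e => hg2 ?_, hj, fun x hx => ?_⟩
    · rw [hi', hj', e]
    · unfold unlift
      rw [hg1 _ (Finset.mem_image_of_mem _ hx)]

end hom

/-! ### The model -/

section mod

variable {M : Set ZFSet.{0}} (hM : IsZF M)

/-- The pairing function for the arguments of binary operations. -/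
def b2 : ℕ ≃ (Fin 2 → ℕ) where
  toFun l := ![l.unpair.1, l.unpair.2]
  invFun x := Nat.pair (x 0) (x 1)
  left_inv l := by simp
  right_inv x := by
    funext i
    fin_cases i <;> simp

/-- The pairing function for the arguments of ternary operations. -/
def b3 : ℕ ≃ (Fin 3 → ℕ) where
  toFun l := ![l.unpair.1, l.unpair.2.unpair.1, l.unpair.2.unpair.2]
  invFun x := Nat.pair (x 0) (Nat.pair (x 1) (x 2))
  left_inv l := by simp
  right_inv x := by
    funext i
    fin_cases i <;> simp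

include hM

theorem exists_B2 {a : ZFSet.{0}} (ha : a ∈ M) (E : ℕ ≃ El a) {Ge : ZFSet.{0}} (hGe : Ge ∈ M)
    (hGe' : ∀ z, z ∈ Ge ↔ ∃ n, z = pair (nat n) (E n).1)
    (hU1 : code (fun q => q.unpair.1) ∈ M) (hU2 : code (fun q => q.unpair.2) ∈ M) :
    ∃ B, Cod M (fun n => (E n).1) (fun l => te E (b2 l)) B Ge := by
  have hB := hM.base
  have hom := hM.infinity
  have hn0 := hM.nat_mem 0
  have hn1 := hM.nat_mem 1
  obtain ⟨P, hP, hP'⟩ := hM.power _ (hM.prod_mem hom ha)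
  have hte : ∀ l, te E (b2 l) = {pair (nat 0) (E l.unpair.1).1, pair (nat 1) (E l.unpair.2).1} := by
    intro l
    ext z
    unfold te
    rw [mem_tup, Fin.exists_fin_two, ZFSet.mem_pair]
    rfl
  have hEM : ∀ n, (E n).1 ∈ M := fun n => hM.trans _ ha _ (E n).2
  have hteP : ∀ l, te E (b2 l) ∈ P := by
    intro l
    rw [hP', hte]
    refine ⟨hM.pairing _ (hM.pair_mem hn0 (hEM _)) _ (hM.pair_mem hn1 (hEM _)), fun z hz => ?_⟩
    rcases ZFSet.mem_pair.1 hz with rfl | rfl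
    · exact ZFSet.pair_mem_prod.2 ⟨om 0, (E _).2⟩
    · exact ZFSet.pair_mem_prod.2 ⟨om 1, (E _).2⟩
  have hpG : ∀ (n : ℕ) (v : ZFSet.{0}), pair (nat n) v ∈ Ge ↔ v = (E n).1 := by
    intro n v
    rw [hGe']
    constructor
    · rintro ⟨n', h⟩
      obtain ⟨h1, h2⟩ := ZFSet.pair_inj.1 h
      rw [nat_injective h1, h2]
    · rintro rfl
      exact ⟨n, rfl⟩
  generalize e1 : code (fun q => q.unpair.1) = U1 at hU1
  generalize e2 : code (fun q => q.unpair.2) = U2 at hU2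
  obtain ⟨B, hBM, h1, h2⟩ := hM.rel_mem hom hP (Q := fun l t => ∃ i ∈ ZFSet.omega,
    ∃ j ∈ ZFSet.omega, pair l i ∈ U1 ∧ pair l j ∈ U2 ∧ ∃ u ∈ a, ∃ v ∈ a, pair i u ∈ Ge ∧
      pair j v ∈ Ge ∧ t = {pair (nat 0) u, pair (nat 1) v}) (by
    (repeat' first
      | assumption
      | exact DfnF.proj _
      | exact DfnF.const (by assumption)
      | exact DfnF.const' (by first | assumption | trivial) (by first | assumption | trivial)
      | exact Dfn.prop _
      | apply Dfn.not | apply Dfn.and | apply Dfn.or | apply Dfn.imp | apply Dfn.iff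
      | apply hB.bex | apply hB.ball | apply Dfn.ex | apply Dfn.all
      | apply Dfn.eq | apply Dfn.mem | apply hB.pair' | apply hB.upair' | apply hB.insert'))
  refine ⟨B, hBM, hGe, fun z => ?_, hGe', fun l l' h => b2.injective (te_inj E h),
    fun n n' h => E.injective (Subtype.ext h)⟩
  constructor
  · intro hz
    obtain ⟨l, hl, t, ht, rfl⟩ := ZFSet.mem_prod.1 (h1 hz)
    obtain ⟨l, rfl⟩ := mem_omega_iff.1 hl
    obtain ⟨-, -, i, hi, j, hj, g1, g2, u, hu, v, hv, g3, g4, g5⟩ := (h2 _ _).1 hz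
    obtain ⟨i, rfl⟩ := mem_omega_iff.1 hi
    obtain ⟨j, rfl⟩ := mem_omega_iff.1 hj
    rw [← e1, pair_code] at g1
    rw [← e2, pair_code] at g2
    rw [hpG] at g3 g4
    refine ⟨l, ?_⟩
    rw [g5, g3, g4, hte, g1, g2]
  · rintro ⟨l, rfl⟩
    refine (h2 _ _).2 ⟨om l, hteP l, nat l.unpair.1, om _, nat l.unpair.2, om _, ?_, ?_,
      (E l.unpair.1).1, (E _).2, (E l.unpair.2).1, (E _).2, (hpG _ _).2 rfl, (hpG _ _).2 rfl,
      hte l⟩
    · rw [← e1, pair_code]
    · rw [← e2, pair_code]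

theorem exists_B3 {a : ZFSet.{0}} (ha : a ∈ M) (E : ℕ ≃ El a) {Ge : ZFSet.{0}} (hGe : Ge ∈ M)
    (hGe' : ∀ z, z ∈ Ge ↔ ∃ n, z = pair (nat n) (E n).1)
    (hU1 : code (fun q => q.unpair.1) ∈ M) (hU2 : code (fun q => q.unpair.2.unpair.1) ∈ M)
    (hU3 : code (fun q => q.unpair.2.unpair.2) ∈ M) :
    ∃ B, Cod M (fun n => (E n).1) (fun l => te E (b3 l)) B Ge := by
  have hB := hM.base
  have hom := hM.infinity
  have hn0 := hM.nat_mem 0
  have hn1 := hM.nat_mem 1
  have hn2 := hM.nat_mem 2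
  obtain ⟨P, hP, hP'⟩ := hM.power _ (hM.prod_mem hom ha)
  have hte : ∀ l, te E (b3 l) = {pair (nat 0) (E l.unpair.1).1,
      pair (nat 1) (E l.unpair.2.unpair.1).1, pair (nat 2) (E l.unpair.2.unpair.2).1} := by
    intro l
    ext z
    unfold te
    rw [mem_tup, Fin.exists_fin_succ, Fin.exists_fin_two, ZFSet.mem_insert_iff, ZFSet.mem_pair]
    rfl
  have hEM : ∀ n, (E n).1 ∈ M := fun n => hM.trans _ ha _ (E n).2
  have hteP : ∀ l, te E (b3 l) ∈ P := by
    intro l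
    rw [hP', hte]
    refine ⟨hM.insert_mem (hM.pair_mem hn0 (hEM _)) (hM.pairing _ (hM.pair_mem hn1 (hEM _)) _
      (hM.pair_mem hn2 (hEM _))), fun z hz => ?_⟩
    rcases ZFSet.mem_insert_iff.1 hz with rfl | hz
    · exact ZFSet.pair_mem_prod.2 ⟨om 0, (E _).2⟩
    rcases ZFSet.mem_pair.1 hz with rfl | rfl
    · exact ZFSet.pair_mem_prod.2 ⟨om 1, (E _).2⟩
    · exact ZFSet.pair_mem_prod.2 ⟨om 2, (E _).2⟩
  have hpG : ∀ (n : ℕ) (v : ZFSet.{0}), pair (nat n) v ∈ Ge ↔ v = (E n).1 := by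
    intro n v
    rw [hGe']
    constructor
    · rintro ⟨n', h⟩
      obtain ⟨h1, h2⟩ := ZFSet.pair_inj.1 h
      rw [nat_injective h1, h2]
    · rintro rfl
      exact ⟨n, rfl⟩
  generalize e1 : code (fun q => q.unpair.1) = U1 at hU1
  generalize e2 : code (fun q => q.unpair.2.unpair.1) = U2 at hU2
  generalize e3 : code (fun q => q.unpair.2.unpair.2) = U3 at hU3
  obtain ⟨B, hBM, h1, h2⟩ := hM.rel_mem hom hP (Q := fun l t => ∃ i ∈ ZFSet.omega,
    ∃ j ∈ ZFSet.omega, ∃ k ∈ ZFSet.omega, pair l i ∈ U1 ∧ pair l j ∈ U2 ∧ pair l k ∈ U3 ∧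
      ∃ u ∈ a, ∃ v ∈ a, ∃ w ∈ a, pair i u ∈ Ge ∧ pair j v ∈ Ge ∧ pair k w ∈ Ge ∧
        t = {pair (nat 0) u, pair (nat 1) v, pair (nat 2) w}) (by
    (repeat' first
      | assumption
      | exact DfnF.proj _
      | exact DfnF.const (by assumption)
      | exact DfnF.const' (by first | assumption | trivial) (by first | assumption | trivial)
      | exact Dfn.prop _
      | apply Dfn.not | apply Dfn.and | apply Dfn.or | apply Dfn.imp | apply Dfn.iff
      | apply hB.bex | apply hB.ball | apply Dfn.ex | apply Dfn.all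
      | apply Dfn.eq | apply Dfn.mem | apply hB.pair' | apply hB.upair' | apply hB.insert'))
  refine ⟨B, hBM, hGe, fun z => ?_, hGe', fun l l' h => b3.injective (te_inj E h),
    fun n n' h => E.injective (Subtype.ext h)⟩
  constructor
  · intro hz
    obtain ⟨l, hl, t, ht, rfl⟩ := ZFSet.mem_prod.1 (h1 hz)
    obtain ⟨l, rfl⟩ := mem_omega_iff.1 hl
    obtain ⟨-, -, i, hi, j, hj, k, hk, g1, g2, g2', u, hu, v, hv, w, hw, g3, g4, g4', g5⟩ :=
      (h2 _ _).1 hz
    obtain ⟨i, rfl⟩ := mem_omega_iff.1 hi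
    obtain ⟨j, rfl⟩ := mem_omega_iff.1 hj
    obtain ⟨k, rfl⟩ := mem_omega_iff.1 hk
    rw [← e1, pair_code] at g1
    rw [← e2, pair_code] at g2
    rw [← e3, pair_code] at g2'
    rw [hpG] at g3 g4 g4'
    refine ⟨l, ?_⟩
    rw [g5, g3, g4, g4', hte, g1, g2, g2']
  · rintro ⟨l, rfl⟩
    refine (h2 _ _).2 ⟨om l, hteP l, nat l.unpair.1, om _, nat l.unpair.2.unpair.1, om _,
      nat l.unpair.2.unpair.2, om _, ?_, ?_, ?_,
      (E l.unpair.1).1, (E _).2, (E l.unpair.2.unpair.1).1, (E _).2,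
      (E l.unpair.2.unpair.2).1, (E _).2, (hpG _ _).2 rfl, (hpG _ _).2 rfl, (hpG _ _).2 rfl,
      hte l⟩
    · rw [← e1, pair_code]
    · rw [← e2, pair_code]
    · rw [← e3, pair_code]

/-- The members of the clone, in terms of codes. -/
theorem exists_Kix {a b : ZFSet.{0}} (E : ℕ ≃ El a) {C : Clone (El a)} (hC : C.In M)
    (h : Hom C (one (El b))) (hb : ∃ u v, u ≠ v ∧ b = {u, v}) (hh : h.In M) {m : ℕ}
    (bb : ℕ ≃ (Fin (m + 1) → ℕ)) {B Ge : ZFSet.{0}}
    (hCod : Cod M (fun n => (E n).1) (fun l => te E (bb l)) B Ge) (i : Fin (m + 1)) :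
    ∃ K ∈ M, (∀ z ∈ K, ∃ y, z = code y) ∧
      ∀ y : ℕ → ℕ, code y ∈ K ↔ Ix E h m (fun x => y (bb.symm x)) i := by
  obtain ⟨cc, hcc, hcc'⟩ := hC
  obtain ⟨Ec, hEc, hEc'⟩ := hh
  have hne : Nonempty (El b) := by
    obtain ⟨u, v, -, rfl⟩ := hb
    exact ⟨⟨u, ZFSet.mem_pair.2 (Or.inl rfl)⟩⟩
  obtain ⟨P, hP⟩ := exists_graph (a := b) fun y : Fin (m + 1) → El b => y i
  obtain ⟨P', hP'⟩ := exists_graph (a := a) fun y : Fin (m + 1) → El a => y i
  have hPM : P ∈ M := by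
    have h1 : pair P' P ∈ Ec := (hEc' _).2 ⟨m, ⟨_, C.proj m i⟩, P', P, hP', by
      rw [h.proj]
      exact hP, rfl⟩
    exact (hM.of_pair_mem (hM.trans _ hEc _ h1)).2
  obtain ⟨K, hK, hK'⟩ := exists_K hM hCod hPM hEc
  refine ⟨K, hK, fun z hz => ?_, fun y => ?_⟩
  · obtain ⟨y, rfl, -⟩ := (hK' z).1 hz
    exact ⟨y, rfl⟩
  rw [hK']
  constructor
  · rintro ⟨y', hy', F, hF, h1, h2⟩
    obtain rfl := code_injective hy'
    obtain ⟨n, f, F₁, F₂, h3, h4, h5⟩ := (hEc' _).1 h1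
    obtain ⟨rfl, rfl⟩ := ZFSet.pair_inj.1 h5
    have hn : n + 1 = m + 1 := graph_len h4 hP
    obtain rfl : n = m := by omega
    have h6 : f.1 = lift E fun x => y (bb.symm x) := by
      funext x
      have h7 := (h2 (bb.symm fun j => E.symm (x j)) _).1 rfl
      simp only [Equiv.apply_symm_apply] at h7
      rw [graph_lift_app E h3] at h7
      unfold unlift at h7
      simp only [Equiv.apply_symm_apply] at h7
      rw [Equiv.symm_apply_eq] at h7
      exact h7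
    have h7 : lift E (fun x => y (bb.symm x)) ∈ C.ops n := h6 ▸ f.2
    refine ⟨h7, ?_⟩
    rw [← map_congr h f.2 h7 h6]
    exact graph_inj h4 hP
  · rintro ⟨h1, h2⟩
    obtain ⟨F, hF⟩ := exists_graph (lift E fun x => y (bb.symm x))
    have hFM : F ∈ M := hM.trans _ hcc _ ((hcc' F).2 ⟨m, _, h1, hF⟩)
    refine ⟨y, rfl, F, hFM, (hEc' _).2 ⟨m, ⟨_, h1⟩, F, P, hF, by rw [h2]; exact hP, rfl⟩,
      fun l k => ?_⟩
    rw [graph_lift_app E hF]
    unfold unlift lift
    simp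

/-- The members of a closed clone. -/
theorem mem_of_closed {a : ZFSet.{0}} (E : ℕ ≃ El a) {C : Clone (El a)} (hCl : C.ClosedIn M)
    {B Ge : ZFSet.{0}} (hCod : Cod M (fun n => (E n).1) (fun l => te E (b2 l)) B Ge)
    {y : ℕ → ℕ} (hy : code y ∈ M)
    (hap : ∀ N, ∃ y', lift E (o2 y') ∈ C.ops 1 ∧ ∀ l < N, y l = y' l) :
    lift E (o2 y) ∈ C.ops 1 := by
  obtain ⟨F, hF, hF'⟩ := exists_F hM hCod hy
  refine hCl 1 _ ⟨F, hF, ?_⟩ fun s => ?_
  · rw [graph_lift]
    intro z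
    rw [hF']
    constructor
    · rintro ⟨l, rfl⟩
      refine ⟨b2 l, ?_⟩
      have h1 : o2 y (b2 l) = y l := congrArg y (b2.symm_apply_apply l)
      rw [h1]
    · rintro ⟨x, rfl⟩
      refine ⟨b2.symm x, ?_⟩
      rw [b2.apply_symm_apply]
      rfl
  · obtain ⟨N, hN⟩ : ∃ N, ∀ x ∈ s, Nat.pair (E.symm (x 0)) (E.symm (x 1)) < N := by
      refine ⟨(∑ x ∈ s, Nat.pair (E.symm (x 0)) (E.symm (x 1))) + 1, fun x hx => ?_⟩
      have h1 := Finset.single_le_sum (f := fun x : Fin 2 → El a =>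
        Nat.pair (E.symm (x 0)) (E.symm (x 1))) (fun _ _ => Nat.zero_le _) hx
      exact Nat.lt_succ_of_le h1
    obtain ⟨y', h1, h2⟩ := hap N
    refine ⟨_, h1, fun x hx => ?_⟩
    unfold lift o2
    rw [h2 _ (hN x hx)]

end mod

/-- The constants. -/
def kk : ℕ → ℕ → ℕ
  | 0 => fun q => q.unpair.1
  | 1 => fun q => q.unpair.2
  | 2 => fun q => q.unpair.2.unpair.1
  | 3 => fun q => q.unpair.2.unpair.2
  | 4 => fun n => n ^ 2
  | 5 => ln
  | _ => en

/-- **The main theorem.** -/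
theorem main : ∃ M : Set ZFSet.{0}, M.Countable ∧ Pool.Agent.Y518.CC.Pub.IsZF M ∧
    Pool.Agent.Y518.CC.Pub.DC M ∧ ∀ a ∈ M, CountablyInfiniteIn M a →
      ∀ C : Clone (El a), C.In M → C.ClosedIn M → C.Oligomorphic →
        ∀ b ∈ M, (∃ u v, u ≠ v ∧ b = {u, v}) → ∀ h : Hom C (one (El b)), h.In M →
          h.Continuous := by
  obtain ⟨M, h1, hM, hDC, hk, hmod⟩ := model2 kk
  have k0 : code (fun q => q.unpair.1) ∈ M := hk 0
  have k1 : code (fun q => q.unpair.2) ∈ M := hk 1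
  have k2 : code (fun q => q.unpair.2.unpair.1) ∈ M := hk 2
  have k3 : code (fun q => q.unpair.2.unpair.2) ∈ M := hk 3
  have k4 : code (fun n => n ^ 2) ∈ M := hk 4
  have k5 : code ln ∈ M := hk 5
  have k6 : code en ∈ M := hk 6
  refine ⟨M, h1, .of hM, hDC, ?_⟩
  rintro a ha ⟨e, he, Ge, hGe, hGe'⟩ C hC hCl hol b - hb h hh
  by_contra hdc
  set E : ℕ ≃ El a := Equiv.ofBijective e he with hEd
  have hGe2 : ∀ z, z ∈ Ge ↔ ∃ n, z = pair (nat n) (E n).1 := by
    intro z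
    rw [hGe']
    refine exists_congr fun n => ?_
    rw [Pool.Agent.Y518.CC.Pub.nat_eq]
    rfl
  have hI : IsHom1 (Ix E h) := isHom1 E h hb hol hdc
  obtain ⟨B2, hB2⟩ := exists_B2 hM ha E hGe hGe2 k0 k1
  obtain ⟨B3, hB3⟩ := exists_B3 hM ha E hGe hGe2 k0 k2 k3
  obtain ⟨K₀, hK₀, r₀, hK₀'⟩ := exists_Kix hM E hC h hb hh b2 hB2 0
  obtain ⟨K₁, hK₁, r₁, hK₁'⟩ := exists_Kix hM E hC h hb hh b2 hB2 1
  obtain ⟨K₃, hK₃, r₃, hK₃'⟩ := exists_Kix hM E hC h hb hh b3 hB3 0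
  have g0 : ∀ y, code y ∈ K₀ ↔ Ix E h 1 (o2 y) 0 := hK₀'
  have g1 : ∀ y, code y ∈ K₁ ↔ Ix E h 1 (o2 y) 1 := hK₁'
  have g3 : ∀ y, code y ∈ K₃ ↔ M3 (Ix E h) y := hK₃'
  have gQ : ∀ y, Q2 (Ix E h) y ↔ code y ∈ K₀ ∨ code y ∈ K₁ := by
    intro y
    rw [g0, g1]
    constructor
    · rintro ⟨i, hi⟩
      fin_cases i
      · exact Or.inl hi
      · exact Or.inr hi
    · rintro (h | h)
      · exact ⟨_, h⟩
      · exact ⟨_, h⟩
  obtain ⟨Y, hY, rY, hY'⟩ := exists_Y hM hK₀ hK₁ hK₃ r₀ r₁ r₃ k0 k1 k4 gQ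
    (U := M3 (Ix E h)) (fun u => (g3 u).symm)
  have hYY : ∀ z, code z ∈ Y ↔ YY (Ix E h) z := hY'
  obtain ⟨T, hT, hT'⟩ := exists_T hM hK₀ hK₁ r₀ r₁
  obtain ⟨d, hd, hd1, hd2⟩ := exists_dense hM hDC k0 k1 k5 k6 hY rY
    ⟨_, (hYY _).2 (yy_mv (m3_id hI))⟩
  have hDns : Dns (Ix E h) d := ⟨fun i => (hYY _).1 (hd1 i), fun z hz => hd2 z ((hYY z).2 hz)⟩
  obtain ⟨c, c1, c2, -, c4⟩ := hmod T hT d hd (suit_of hI hDns)
  have hsg : Sg d (Q2 (Ix E h)) (xi (Ix E h)) := sg_of hI hDns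
  have hst : ∀ i n, tg d i = n + 1 → Q2 (Ix E h) (vl d i) := fun i n hi => (dns_st hDns hi).1
  have hQ : ∀ k₁ st₁, Al d st₁ → Q2 (Ix E h) (lm d c k₁ st₁) := by
    intro k₁ st₁ hal
    have e1 : FF (none, k₁, st₁.1, st₁.2) (d, c) = lm d c k₁ st₁ := by
      funext l
      exact if_pos hal
    have e2 : code (lm d c k₁ st₁) ∈ M := by
      rw [← e1]
      exact c2 _
    have e3 := mem_of_closed hM E hCl hB2 e2 (fun N => by
      obtain ⟨y, ⟨i, hy⟩, hy2⟩ := lm_approx hsg hst hal (rch_of c1 hal) N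
      exact ⟨y, hy.1, hy2⟩)
    exact ix_ex E h e3
  obtain ⟨i₀, hi₀⟩ := exists_start hI hDns
  -- the two values of the generic member
  set w : ℕ := if xi (Ix E h) (lm d c 0 (0, i₀)) then 1 else 0 with hw
  have hFF : ∀ c', FF (some w, 0, 0, i₀) (d, c') =
      fun l => Nat.casesOn l w (lm d c' 0 (0, i₀)) := by
    intro c'
    funext l
    cases l with
    | zero => rfl
    | succ l => exact if_pos hi₀
  have hTT : ∀ (b : Bool) (y : ℕ → ℕ), code (fun l => Nat.casesOn l (if b then 1 else 0) y) ∈ T ↔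
      Ix E h 1 (o2 y) (ib b) := by
    intro b y
    rw [hT']
    cases b with
    | false =>
      simp only [Bool.false_eq_true, if_false]
      constructor
      · rintro (⟨-, h2⟩ | ⟨h2, -⟩)
        · exact (g0 _).1 h2
        · exact absurd h2 (by simp)
      · intro h2
        exact Or.inl ⟨rfl, (g0 _).2 h2⟩
    | true =>
      simp only [if_true]
      constructor
      · rintro (⟨h2, -⟩ | ⟨-, h2⟩)
        · exact absurd h2 (by simp)
        · exact (g1 _).1 h2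
      · intro h2
        exact Or.inr ⟨rfl, (g1 _).2 h2⟩
  have hin : code (FF (some w, 0, 0, i₀) (d, c)) ∈ T := by
    rw [hFF, hw, hTT]
    exact (q2_iff hI).1 (hQ _ _ hi₀)
  obtain ⟨N, hN⟩ := c4 _ hin
  obtain ⟨s, hs, hG⟩ := good_of c1 (k₀ := 0) hi₀ N
  have hin' := hN s hs
  rw [hFF, hw, hTT] at hin'
  obtain ⟨-, -, f3⟩ := flip_ne hsg hi₀ (rch_of c1 hi₀) hG hQ
  exact f3 (xi_eq hI hin')

end Pool.Agent.L5helper55.OC
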