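import Pool.Agent.L5helper55.OC.Comb2
import Pool.Agent.W868.Im

/-!
# Reals in a model of set theory
-/

set_option autoImplicit false
set_option linter.unusedSectionVars false
set_option linter.unreachableTactic false
set_option linter.unusedTactic false

namespace Pool.Agent.L5helper55.OC

open Pool.Agent.W868 Pool.Agent.W910.SY
open Pool.Agent.W910.BG (code mem_code code_injective isFunc_code)
open ZFSet (pair)

theorem pair_code {y : ℕ → ℕ} {i j : ℕ} : pair (nat i) (nat j) ∈ code y ↔ y i = j := by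
  rw [mem_code]
  constructor
  · rintro ⟨n, hn⟩
    obtain ⟨h1, h2⟩ := ZFSet.pair_inj.1 hn
    rw [nat_injective h1]
    exact (nat_injective h2).symm
  · rintro rfl
    exact ⟨i, rfl⟩

theorem om (n : ℕ) : nat n ∈ ZFSet.omega := mem_omega_iff.2 ⟨n, rfl⟩

theorem all_om {Q : ZFSet.{0} → Prop} : (∀ x ∈ ZFSet.omega, Q x) ↔ ∀ n, Q (nat n) := by
  constructor
  · exact fun h n => h _ (om n)
  · intro h x hx
    obtain ⟨n, rfl⟩ := mem_omega_iff.1 hx
    exact h n

theorem ex_om {Q : ZFSet.{0} → Prop} : (∃ x ∈ ZFSet.omega, Q x) ↔ ∃ n, Q (nat n) := by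
  constructor
  · rintro ⟨x, hx, h⟩
    obtain ⟨n, rfl⟩ := mem_omega_iff.1 hx
    exact ⟨n, h⟩
  · rintro ⟨n, h⟩
    exact ⟨_, om n, h⟩

theorem nat_mem_nat {m n : ℕ} : nat m ∈ nat n ↔ m < n := by
  rw [nat_eq, nat_eq, Ordinal.toZFSet_mem_toZFSet_iff, Nat.cast_lt]

theorem all_nat {N : ℕ} {Q : ZFSet.{0} → Prop} : (∀ x ∈ nat N, Q x) ↔ ∀ n < N, Q (nat n) := by
  constructor
  · exact fun h n hn => h _ (nat_mem_nat.2 hn)
  · intro h x hx
    have h1 : ∀ N : ℕ, ∀ x ∈ nat N, ∃ n, x = nat n := by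
      intro N
      induction N with
      | zero => exact fun x hx => absurd hx (ZFSet.notMem_empty x)
      | succ N ih =>
        intro x hx
        rcases ZFSet.mem_insert_iff.1 hx with rfl | hx
        · exact ⟨N, rfl⟩
        · exact ih x hx
    obtain ⟨n, rfl⟩ := h1 N x hx
    exact h n (nat_mem_nat.1 hx)

theorem isFunc_iff {z : ZFSet.{0}} : ZFSet.IsFunc ZFSet.omega ZFSet.omega z ↔ ∃ y, z = code y := by
  constructor
  · rintro ⟨h1, h2⟩
    have h3 : ∀ n : ℕ, ∃ m : ℕ, pair (nat n) (nat m) ∈ z ∧ ∀ w, pair (nat n) w ∈ z → w = nat m := by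
      intro n
      obtain ⟨w, hw, hu⟩ := h2 _ (om n)
      obtain ⟨m, rfl⟩ := mem_omega_iff.1 (ZFSet.pair_mem_prod.1 (h1 hw)).2
      exact ⟨m, hw, hu⟩
    choose y hy1 hy2 using h3
    refine ⟨y, ?_⟩
    ext p
    rw [mem_code]
    constructor
    · intro hp
      obtain ⟨a, ha, b, hb, rfl⟩ := ZFSet.mem_prod.1 (h1 hp)
      obtain ⟨n, rfl⟩ := mem_omega_iff.1 ha
      exact ⟨n, by rw [hy2 n b hp]⟩
    · rintro ⟨n, rfl⟩
      exact hy1 n
  · rintro ⟨y, rfl⟩
    exact isFunc_code y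

variable {M : Set ZFSet.{0}} (hM : IsZF M)

include hM

/-- The set of the reals of `M`. -/
theorem exists_Rl : ∃ Rl ∈ M, ∀ z, z ∈ Rl ↔ ∃ y, code y ∈ M ∧ z = code y := by
  obtain ⟨Pw, hPw, hPw'⟩ := hM.power _ (hM.prod_mem hM.infinity hM.infinity)
  have hom := hM.infinity
  have h1 : Dfn M M fun w : Fin 1 → ZFSet.{0} => ZFSet.IsFunc ZFSet.omega ZFSet.omega (w 0) :=
    hM.base.isFunc' (DfnF.const hom) (DfnF.const hom) (DfnF.proj 0)
  have h2 := hM.sep_mem (Q := fun y => ZFSet.IsFunc ZFSet.omega ZFSet.omega y) h1 hPw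
  refine ⟨_, h2, fun z => ?_⟩
  rw [ZFSet.mem_sep, hPw', isFunc_iff]
  constructor
  · rintro ⟨⟨h3, h4⟩, y, rfl⟩
    exact ⟨y, h3, rfl⟩
  · rintro ⟨y, h3, rfl⟩
    exact ⟨⟨h3, (isFunc_code y).1⟩, y, rfl⟩

/-- A real given by a definable graph. -/
theorem code_of {Q : ZFSet.{0} → ZFSet.{0} → Prop}
    (h : Dfn M M fun w : Fin 2 → ZFSet.{0} => Q (w 0) (w 1)) {y : ℕ → ℕ}
    (hy : ∀ i j, Q (nat i) (nat j) ↔ y i = j) : code y ∈ M := by
  obtain ⟨f, hf, h1, h2⟩ := hM.rel_mem hM.infinity hM.infinity h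
  have h3 : f = code y := by
    ext p
    rw [mem_code]
    constructor
    · intro hp
      obtain ⟨a, ha, b, hb, rfl⟩ := ZFSet.mem_prod.1 (h1 hp)
      obtain ⟨i, rfl⟩ := mem_omega_iff.1 ha
      obtain ⟨j, rfl⟩ := mem_omega_iff.1 hb
      exact ⟨i, by rw [(hy i j).1 ((h2 _ _).1 hp).2.2]⟩
    · rintro ⟨n, rfl⟩
      exact (h2 _ _).2 ⟨om _, om _, (hy _ _).2 rfl⟩
  rwa [h3] at hf

omit hM in
/-- The length of the finite sequence coded by `k`. -/
def ln (k : ℕ) : ℕ := (Denumerable.ofNat (List ℕ) k).length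

omit hM in
/-- The entries of the finite sequence coded by `k`. -/
def en (q : ℕ) : ℕ := (Denumerable.ofNat (List ℕ) q.unpair.1).getD q.unpair.2 0

omit hM in
theorem exists_seq (y : ℕ → ℕ) (N : ℕ) : ∃ k, ln k = N ∧ ∀ l < N, en (Nat.pair k l) = y l := by
  refine ⟨Encodable.encode (List.ofFn fun i : Fin N => y i), ?_, fun l hl => ?_⟩
  · unfold ln
    rw [Denumerable.ofNat_encode, List.length_ofFn]
  · unfold en
    rw [Nat.unpair_pair]
    simp only
    rw [Denumerable.ofNat_encode, List.getD_eq_getElem _ _ (by rw [List.length_ofFn]; exact hl),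
      List.getElem_ofFn]

/-- **Separability.** A nonempty set of reals has a dense sequence. -/
theorem exists_dense (hDC : DC M) (h1 : code (fun q => q.unpair.1) ∈ M)
    (h2 : code (fun q => q.unpair.2) ∈ M) (h3 : code ln ∈ M) (h4 : code en ∈ M)
    {Y : ZFSet.{0}} (hY : Y ∈ M) (hYr : ∀ z ∈ Y, ∃ y, z = code y) (hne : ∃ z, z ∈ Y) :
    ∃ d, code d ∈ M ∧ (∀ i, code (fun l => d (Nat.pair i l)) ∈ Y) ∧
      ∀ z, code z ∈ Y → ∀ N, ∃ i, ∀ l < N, d (Nat.pair i l) = z l := by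
  have hom := hM.infinity
  have hB := hM.base
  generalize hU1 : code (fun q => q.unpair.1) = U1 at h1
  generalize hU2 : code (fun q => q.unpair.2) = U2 at h2
  generalize hLN : code ln = LN at h3
  generalize hEN : code en = EN at h4
  -- extension
  let Ext : ZFSet.{0} → ZFSet.{0} → Prop := fun k y => ∀ n ∈ ZFSet.omega, pair k n ∈ LN →
    ∀ l ∈ n, ∀ v ∈ ZFSet.omega, ∀ q ∈ ZFSet.omega, pair q k ∈ U1 → pair q l ∈ U2 →
      pair q v ∈ EN → pair l v ∈ y
  have hExt : ∀ (k : ℕ) (y : ℕ → ℕ), Ext (nat k) (code y) ↔ ∀ l < ln k, y l = en (Nat.pair k l) := by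
    intro k y
    simp only [Ext, all_om, ← hU1, ← hU2, ← hLN, ← hEN, pair_code]
    constructor
    · intro h l hl
      have h5 := h (ln k) rfl (nat l) (nat_mem_nat.2 hl) (en (Nat.pair k l)) (Nat.pair k l)
        (by simp) (pair_code.2 (by simp)) rfl
      exact pair_code.1 h5
    · rintro h n rfl
      rw [all_nat]
      intro l hl v q hq1 hq2 hq3
      rw [pair_code] at hq2 ⊢
      have h5 : q = Nat.pair k l := by rw [← Nat.pair_unpair q, hq1, hq2]
      rw [h l hl, ← h5, hq3]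
  let R : ZFSet.{0} → ZFSet.{0} → Prop := fun p p' => fs p' = insert (fs p) (fs p) ∧
    ∀ k ∈ ZFSet.omega, pair (fs p') k ∈ U1 → Ext k (sn p') ∨ ∀ y ∈ Y, ¬ Ext k y
  have hR : Dfn M M fun w : Fin 2 → ZFSet.{0} => R (w 0) (w 1) := by
    simp only [R, Ext]
    (repeat' first
      | assumption
      | exact DfnF.proj _
      | exact DfnF.const (by assumption)
      | exact DfnF.const' (by first | assumption | trivial) (by first | assumption | trivial)
      | exact Dfn.prop _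
      | apply Dfn.not | apply Dfn.and | apply Dfn.or | apply Dfn.imp | apply Dfn.iff
      | apply hB.bex | apply hB.ball | apply Dfn.ex | apply Dfn.all
      | apply Dfn.eq | apply Dfn.mem | apply hB.pair' | apply hB.insert' | apply hM.fs'
      | apply hM.sn')
  have hX := hM.prod_mem hom hY
  obtain ⟨r, hr, hr1, hr2⟩ := hM.rel_mem hX hX hR
  obtain ⟨s, hs, hs1, hs2⟩ := hDC _ hX r hr (by
    obtain ⟨z, hz⟩ := hne
    exact ⟨_, ZFSet.pair_mem_prod.2 ⟨om 0, hz⟩⟩) (by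
    intro p hp
    obtain ⟨a, ha, z, hz, rfl⟩ := ZFSet.mem_prod.1 hp
    obtain ⟨n, rfl⟩ := mem_omega_iff.1 ha
    have h5 : ∃ z' ∈ Y, Ext (nat (n + 1).unpair.1) z' ∨ ∀ y ∈ Y, ¬ Ext (nat (n + 1).unpair.1) y := by
      by_cases h : ∃ z' ∈ Y, Ext (nat (n + 1).unpair.1) z'
      · obtain ⟨z', hz', h6⟩ := h
        exact ⟨z', hz', Or.inl h6⟩
      · push Not at h
        exact ⟨z, hz, Or.inr h⟩
    obtain ⟨z', hz', h6⟩ := h5
    have h7 : pair (nat (n + 1)) z' ∈ ZFSet.prod ZFSet.omega Y := ZFSet.pair_mem_prod.2 ⟨om _, hz'⟩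
    refine ⟨_, h7, (hr2 _ _).2 ⟨hp, h7, ?_, fun k hk h8 => ?_⟩⟩
    · rw [fs_pair, fs_pair]
      rfl
    · obtain ⟨k, rfl⟩ := mem_omega_iff.1 hk
      rw [fs_pair, ← hU1, pair_code] at h8
      rw [sn_pair, ← h8]
      exact h6)
  -- the sequence
  have h5 : ∀ m : ℕ, ∃ (n : ℕ) (y : ℕ → ℕ), code y ∈ Y ∧ pair (nat m) (pair (nat n) (code y)) ∈ s ∧
      ∀ w, pair (nat m) w ∈ s → w = pair (nat n) (code y) := by
    intro m
    obtain ⟨w, hw, hu⟩ := hs1.2 _ (om m)
    obtain ⟨a, ha, z, hz, rfl⟩ := ZFSet.mem_prod.1 (ZFSet.pair_mem_prod.1 (hs1.1 hw)).2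
    obtain ⟨n, rfl⟩ := mem_omega_iff.1 ha
    obtain ⟨y, rfl⟩ := hYr z hz
    exact ⟨n, y, hz, hw, hu⟩
  choose n y hy1 hy2 hy3 using h5
  have h6 : ∀ m, R (pair (nat (n m)) (code (y m))) (pair (nat (n (m + 1))) (code (y (m + 1)))) :=
    fun m => ((hr2 _ _).1 (hs2 (nat m) _ _ (hy2 m) (hy2 (m + 1)))).2.2
  have h7 : ∀ m, n m = n 0 + m := by
    intro m
    induction m with
    | zero => rfl
    | succ m ih =>
      have h8 := (h6 m).1
      rw [fs_pair, fs_pair] at h8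
      have h9 : nat (n (m + 1)) = nat (n m + 1) := h8
      rw [nat_injective h9, ih, add_assoc]
  have hsM := hs
  refine ⟨fun q => y q.unpair.1 q.unpair.2, ?_, fun i => ?_, fun z hz N => ?_⟩
  · refine code_of hM (Q := fun q v => ∃ m ∈ ZFSet.omega, ∃ l ∈ ZFSet.omega, pair q m ∈ U1 ∧
      pair q l ∈ U2 ∧ ∃ p ∈ ZFSet.prod ZFSet.omega Y, pair m p ∈ s ∧ pair l v ∈ sn p) ?_ ?_
    · (repeat' first
        | assumption
        | exact DfnF.proj _
        | exact DfnF.const (by assumption)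
        | exact DfnF.const' (by first | assumption | trivial) (by first | assumption | trivial)
        | exact Dfn.prop _
        | apply Dfn.not | apply Dfn.and | apply Dfn.or | apply Dfn.imp | apply Dfn.iff
        | apply hB.bex | apply hB.ball | apply Dfn.ex | apply Dfn.all
        | apply Dfn.eq | apply Dfn.mem | apply hB.pair' | apply hB.insert' | apply hM.fs'
        | apply hM.sn')
    · intro q v
      simp only [ex_om, ← hU1, ← hU2, pair_code]
      constructor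
      · rintro ⟨m, l, rfl, rfl, p, hp, h8, h9⟩
        rw [hy3 _ _ h8, sn_pair, pair_code] at h9
        exact h9
      · intro h8
        refine ⟨_, _, rfl, rfl, _, ZFSet.pair_mem_prod.2 ⟨om (n q.unpair.1), hy1 _⟩, hy2 _, ?_⟩
        rw [sn_pair, pair_code]
        exact h8
  · have h8 : (fun l => y (Nat.pair i l).unpair.1 (Nat.pair i l).unpair.2) = y i := by
      funext l
      simp
    rw [h8]
    exact hy1 i
  · obtain ⟨k, hk1, hk2⟩ := exists_seq z N
    -- a late index with the requirement `k`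
    set m := Nat.pair k (n 0 + 1) - n 0 - 1 with hm
    have h8 : n 0 + 1 ≤ Nat.pair k (n 0 + 1) := Nat.right_le_pair _ _
    have h9 : n (m + 1) = Nat.pair k (n 0 + 1) := by rw [h7]; omega
    have h10 := (h6 m).2 (nat k) (om k) (by
      rw [fs_pair, h9, ← hU1, pair_code]
      simp)
    rw [sn_pair] at h10
    refine ⟨m + 1, fun l hl => ?_⟩
    simp only [Nat.unpair_pair]
    rcases h10 with h10 | h10
    · rw [(hExt _ _).1 h10 l (by rw [hk1]; exact hl), hk2 l hl]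
    · exact absurd ((hExt k z).2 fun l hl => (hk2 l (by rwa [hk1] at hl)).symm) (h10 _ hz)

end Pool.Agent.L5helper55.OC
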