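import Pool.Agent.L5helper55.OC.Int1
import Pool.Agent.L5helper55.OC.Alg

/-!
# Codes of operations in a model of set theory
-/

set_option autoImplicit false
set_option linter.unusedSectionVars false
set_option linter.unreachableTactic false
set_option linter.unusedTactic false

namespace Pool.Agent.L5helper55.OC

open Pool.Agent.W868 Pool.Agent.W910.SY
open Pool.Agent.W910.BG (code mem_code code_injective isFunc_code)
open ZFSet (pair)

/-- The sets `B` and `Ge` are the graphs of injective functions `β` (to tuples) and `eg` (to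
elements). -/
structure Cod (M : Set ZFSet.{0}) (eg β : ℕ → ZFSet.{0}) (B Ge : ZFSet.{0}) : Prop where
  B_mem : B ∈ M
  Ge_mem : Ge ∈ M
  B_iff : ∀ z, z ∈ B ↔ ∃ l, z = pair (nat l) (β l)
  Ge_iff : ∀ z, z ∈ Ge ↔ ∃ n, z = pair (nat n) (eg n)
  inj : Function.Injective β
  einj : Function.Injective eg

/-- The real `z` codes the operation with the graph `F`. -/
def Gr (M : Set ZFSet.{0}) (B Ge z F : ZFSet.{0}) : Prop :=
  ∀ l ∈ ZFSet.omega, ∀ k ∈ ZFSet.omega, ∀ t ∈ M, ∀ v ∈ M, pair l t ∈ B → pair k v ∈ Ge →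
    (pair l k ∈ z ↔ pair t v ∈ F)

variable {M : Set ZFSet.{0}} {eg β : ℕ → ZFSet.{0}} {B Ge : ZFSet.{0}}

theorem Cod.pB (C : Cod M eg β B Ge) {l : ℕ} {t : ZFSet.{0}} : pair (nat l) t ∈ B ↔ t = β l := by
  rw [C.B_iff]
  constructor
  · rintro ⟨l', h⟩
    obtain ⟨h1, h2⟩ := ZFSet.pair_inj.1 h
    rw [nat_injective h1, h2]
  · rintro rfl
    exact ⟨l, rfl⟩

theorem Cod.pG (C : Cod M eg β B Ge) {l : ℕ} {t : ZFSet.{0}} : pair (nat l) t ∈ Ge ↔ t = eg l := by
  rw [C.Ge_iff]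
  constructor
  · rintro ⟨l', h⟩
    obtain ⟨h1, h2⟩ := ZFSet.pair_inj.1 h
    rw [nat_injective h1, h2]
  · rintro rfl
    exact ⟨l, rfl⟩

section

variable (hM : IsZF M) (C : Cod M eg β B Ge)

include hM C

theorem Cod.β_mem (l : ℕ) : β l ∈ M :=
  (hM.of_pair_mem (hM.trans _ C.B_mem _ (C.pB.2 (rfl : β l = β l)))).2

theorem Cod.eg_mem (l : ℕ) : eg l ∈ M :=
  (hM.of_pair_mem (hM.trans _ C.Ge_mem _ (C.pG.2 (rfl : eg l = eg l)))).2

theorem gr_iff {y : ℕ → ℕ} {F : ZFSet.{0}} :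
    Gr M B Ge (code y) F ↔ ∀ l k, y l = k ↔ pair (β l) (eg k) ∈ F := by
  unfold Gr
  rw [all_om]
  refine forall_congr' fun l => ?_
  rw [all_om]
  refine forall_congr' fun k => ?_
  rw [pair_code]
  constructor
  · intro h
    exact h _ (C.β_mem hM l) _ (C.eg_mem hM k) (C.pB.2 rfl) (C.pG.2 rfl)
  · intro h t _ v _ h1 h2
    rw [C.pB.1 h1, C.pG.1 h2]
    exact h

theorem exists_F {y : ℕ → ℕ} (hy : code y ∈ M) :
    ∃ F ∈ M, ∀ z, z ∈ F ↔ ∃ l, z = pair (β l) (eg (y l)) := by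
  have hB := hM.base
  have hBM := C.B_mem
  have hGM := C.Ge_mem
  have hom := hM.infinity
  have h1 := hM.union _ (hM.union _ hBM)
  have h2 := hM.union _ (hM.union _ hGM)
  have key : ∀ (X : ZFSet.{0}) (u v : ZFSet.{0}), pair u v ∈ X →
      v ∈ ZFSet.sUnion (ZFSet.sUnion X) := by
    intro X u v h
    refine ZFSet.mem_sUnion.2 ⟨{u, v}, ZFSet.mem_sUnion.2 ⟨_, h, ?_⟩, ?_⟩
    · simp [pair]
    · simp
  generalize hz : code y = z at hy
  obtain ⟨f, hf, h3, h4⟩ := hM.rel_mem h1 h2 (Q := fun t v => ∃ l ∈ ZFSet.omega,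
    ∃ k ∈ ZFSet.omega, pair l t ∈ B ∧ pair l k ∈ z ∧ pair k v ∈ Ge) (by
    (repeat' first
      | assumption
      | exact DfnF.proj _
      | exact DfnF.const (by assumption)
      | exact DfnF.const' (by first | assumption | trivial) (by first | assumption | trivial)
      | exact Dfn.prop _
      | apply Dfn.not | apply Dfn.and | apply Dfn.or | apply Dfn.imp | apply Dfn.iff
      | apply hB.bex | apply hB.ball | apply Dfn.ex | apply Dfn.all
      | apply Dfn.eq | apply Dfn.mem | apply hB.pair'))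
  refine ⟨f, hf, fun p => ?_⟩
  constructor
  · intro hp
    obtain ⟨t, ht, v, hv, rfl⟩ := ZFSet.mem_prod.1 (h3 hp)
    obtain ⟨-, -, l, hl, k, hk, g1, g2, g3⟩ := (h4 _ _).1 hp
    obtain ⟨l, rfl⟩ := mem_omega_iff.1 hl
    obtain ⟨k, rfl⟩ := mem_omega_iff.1 hk
    rw [← hz, pair_code] at g2
    rw [C.pB.1 g1, C.pG.1 g3, ← g2]
    exact ⟨l, rfl⟩
  · rintro ⟨l, rfl⟩
    refine (h4 _ _).2 ⟨key _ _ _ (C.pB.2 rfl), key _ _ _ (C.pG.2 rfl), nat l, om l, nat (y l),
      om _, C.pB.2 rfl, ?_, C.pG.2 rfl⟩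
    rw [← hz, pair_code]

theorem code_of_F {y : ℕ → ℕ} {F : ZFSet.{0}} (hF : F ∈ M)
    (hy : ∀ l k, y l = k ↔ pair (β l) (eg k) ∈ F) : code y ∈ M := by
  have hB := hM.base
  have hBM := C.B_mem
  have hGM := C.Ge_mem
  refine code_of hM (Q := fun l k => ∃ t ∈ M, ∃ v ∈ M, pair l t ∈ B ∧ pair k v ∈ Ge ∧
    pair t v ∈ F) ?_ ?_
  · (repeat' first
      | assumption
      | exact DfnF.proj _
      | exact DfnF.const (by assumption)
      | exact DfnF.const' (by first | assumption | trivial) (by first | assumption | trivial)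
      | exact Dfn.prop _
      | apply Dfn.not | apply Dfn.and | apply Dfn.or | apply Dfn.imp | apply Dfn.iff
      | apply hB.bex | apply hB.ball | apply Dfn.ex | apply Dfn.all
      | apply Dfn.eq | apply Dfn.mem | apply hB.pair')
  · intro l k
    rw [hy]
    constructor
    · rintro ⟨t, -, v, -, h1, h2, h3⟩
      rwa [C.pB.1 h1, C.pG.1 h2] at h3
    · intro h
      exact ⟨_, C.β_mem hM l, _, C.eg_mem hM k, C.pB.2 rfl, C.pG.2 rfl, h⟩

theorem exists_K {P Ec : ZFSet.{0}} (hP : P ∈ M) (hE : Ec ∈ M) : ∃ K ∈ M, ∀ z, z ∈ K ↔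
    ∃ y, z = code y ∧ ∃ F ∈ M, pair F P ∈ Ec ∧ ∀ l k, y l = k ↔ pair (β l) (eg k) ∈ F := by
  have hB := hM.base
  have hBM := C.B_mem
  have hGM := C.Ge_mem
  have hom := hM.infinity
  obtain ⟨Rl, hRl, hRl'⟩ := exists_Rl hM
  have h1 := hM.sep_mem (Q := fun z => ∃ F ∈ M, pair F P ∈ Ec ∧ Gr M B Ge z F) (by
    unfold Gr
    (repeat' first
      | assumption
      | exact DfnF.proj _
      | exact DfnF.const (by assumption)
      | exact DfnF.const' (by first | assumption | trivial) (by first | assumption | trivial)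
      | exact Dfn.prop _
      | apply Dfn.not | apply Dfn.and | apply Dfn.or | apply Dfn.imp | apply Dfn.iff
      | apply hB.bex | apply hB.ball | apply Dfn.ex | apply Dfn.all
      | apply Dfn.eq | apply Dfn.mem | apply hB.pair')) hRl
  refine ⟨_, h1, fun z => ?_⟩
  rw [ZFSet.mem_sep, hRl']
  constructor
  · rintro ⟨⟨y, -, rfl⟩, F, hF, h2, h3⟩
    exact ⟨y, rfl, F, hF, h2, (gr_iff hM C).1 h3⟩
  · rintro ⟨y, rfl, F, hF, h2, h3⟩
    exact ⟨⟨y, code_of_F hM C hF h3, rfl⟩, F, hF, h2, (gr_iff hM C).2 h3⟩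

end

/-! ### The sets for the datum -/

section sets

variable (hM : IsZF M)

include hM

omit hM in
/-- The tail of a real. -/
def Tl (z u : ZFSet.{0}) : Prop :=
  ∀ l ∈ ZFSet.omega, ∀ v ∈ ZFSet.omega, pair l v ∈ u ↔ pair (insert l l) v ∈ z

omit hM in
theorem tl_iff {z u : ℕ → ℕ} : Tl (code z) (code u) ↔ u = fun l => z (l + 1) := by
  have h0 : ∀ l : ℕ, insert (nat l) (nat l) = nat (l + 1) := fun l => rfl
  unfold Tl
  simp only [all_om, h0, pair_code]
  constructor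
  · intro h
    funext l
    exact (h l (z (l + 1))).2 rfl
  · rintro rfl l v
    exact Iff.rfl

/-- Tails of reals. -/
theorem tail_mem {z : ℕ → ℕ} (hz : code z ∈ M) : code (fun l => z (l + 1)) ∈ M := by
  have hB := hM.base
  have h0 : ∀ l : ℕ, insert (nat l) (nat l) = nat (l + 1) := fun l => rfl
  generalize hZ : code z = Z at hz
  refine code_of hM (Q := fun l v => pair (insert l l) v ∈ Z) ?_ ?_
  · (repeat' first
      | assumption
      | exact DfnF.proj _
      | exact DfnF.const (by assumption)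
      | exact DfnF.const' (by first | assumption | trivial) (by first | assumption | trivial)
      | exact Dfn.prop _
      | apply Dfn.not | apply Dfn.and | apply Dfn.or | apply Dfn.imp | apply Dfn.iff
      | apply hB.bex | apply hB.ball | apply Dfn.ex | apply Dfn.all
      | apply Dfn.eq | apply Dfn.mem | apply hB.pair' | apply hB.insert')
  · intro i j
    rw [h0, ← hZ, pair_code]

/-- Reals with a given tail. -/
theorem cons_mem {u : ℕ → ℕ} (hu : code u ∈ M) (v : ℕ) :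
    code (fun l => Nat.casesOn l v u) ∈ M := by
  have hB := hM.base
  have hv := hM.nat_mem v
  have h0 := hM.nat_mem 0
  have hom := hM.infinity
  have h1 : ∀ l : ℕ, insert (nat l) (nat l) = nat (l + 1) := fun l => rfl
  generalize hU : code u = U at hu
  refine code_of hM (Q := fun l w => (l = nat 0 ∧ w = nat v) ∨ ∃ k ∈ ZFSet.omega,
    l = insert k k ∧ pair k w ∈ U) ?_ ?_
  · (repeat' first
      | assumption
      | exact DfnF.proj _
      | exact DfnF.const (by assumption)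
      | exact DfnF.const' (by first | assumption | trivial) (by first | assumption | trivial)
      | exact Dfn.prop _
      | apply Dfn.not | apply Dfn.and | apply Dfn.or | apply Dfn.imp | apply Dfn.iff
      | apply hB.bex | apply hB.ball | apply Dfn.ex | apply Dfn.all
      | apply Dfn.eq | apply Dfn.mem | apply hB.pair' | apply hB.insert')
  · intro i j
    simp only [ex_om, h1, ← hU, pair_code]
    cases i with
    | zero =>
      constructor
      · rintro (⟨-, h⟩ | ⟨k, h, -⟩)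
        · exact (nat_injective h).symm
        · exact absurd (nat_injective h) (by omega)
      · rintro rfl
        exact Or.inl ⟨rfl, rfl⟩
    | succ i =>
      constructor
      · rintro (⟨h, -⟩ | ⟨k, h, h2⟩)
        · exact absurd (nat_injective h) (by omega)
        · have h3 := nat_injective h
          have h4 : k = i := by omega
          rw [h4] at h2
          exact h2
      · rintro rfl
        exact Or.inr ⟨i, rfl, rfl⟩

/-- The set of the reals that code a value of the homomorphism and an operation. -/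
theorem exists_T {K₀ K₁ : ZFSet.{0}} (h₀ : K₀ ∈ M) (h₁ : K₁ ∈ M)
    (hr₀ : ∀ z ∈ K₀, ∃ y, z = code y) (hr₁ : ∀ z ∈ K₁, ∃ y, z = code y) :
    ∃ T ∈ M, ∀ z, code z ∈ T ↔ (z 0 = 0 ∧ code (fun l => z (l + 1)) ∈ K₀) ∨
      (z 0 = 1 ∧ code (fun l => z (l + 1)) ∈ K₁) := by
  have hB := hM.base
  have hom := hM.infinity
  have hn0 := hM.nat_mem 0
  have hn1 := hM.nat_mem 1
  obtain ⟨Rl, hRl, hRl'⟩ := exists_Rl hM
  have h1 := hM.sep_mem (Q := fun z => (pair (nat 0) (nat 0) ∈ z ∧ ∃ u ∈ K₀, Tl z u) ∨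
    (pair (nat 0) (nat 1) ∈ z ∧ ∃ u ∈ K₁, Tl z u)) (by
    unfold Tl
    (repeat' first
      | assumption
      | exact DfnF.proj _
      | exact DfnF.const (by assumption)
      | exact DfnF.const' (by first | assumption | trivial) (by first | assumption | trivial)
      | exact Dfn.prop _
      | apply Dfn.not | apply Dfn.and | apply Dfn.or | apply Dfn.imp | apply Dfn.iff
      | apply hB.bex | apply hB.ball | apply Dfn.ex | apply Dfn.all
      | apply Dfn.eq | apply Dfn.mem | apply hB.pair' | apply hB.insert')) hRl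
  refine ⟨_, h1, fun z => ?_⟩
  rw [ZFSet.mem_sep, hRl', pair_code, pair_code]
  have h2 : ∀ K : ZFSet.{0}, (∀ z ∈ K, ∃ y, z = code y) →
      ((∃ u ∈ K, Tl (code z) u) ↔ code (fun l => z (l + 1)) ∈ K) := by
    intro K hK
    constructor
    · rintro ⟨u, hu, h3⟩
      obtain ⟨y, rfl⟩ := hK u hu
      rw [tl_iff] at h3
      rwa [h3] at hu
    · intro h3
      exact ⟨_, h3, tl_iff.2 rfl⟩
  rw [h2 K₀ hr₀, h2 K₁ hr₁]
  constructor
  · exact fun h => h.2
  · intro h
    refine ⟨⟨z, ?_, rfl⟩, h⟩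
    have h4 : (fun l => Nat.casesOn l (z 0) (fun l => z (l + 1)) : ℕ → ℕ) = z := by
      funext l
      cases l <;> rfl
    rw [← h4]
    refine cons_mem hM ?_ _
    rcases h with h | h
    · exact hM.trans _ h₀ _ h.2
    · exact hM.trans _ h₁ _ h.2

/-- The relation between states, for codes. -/
theorem exists_Y {K₀ K₁ K₃ : ZFSet.{0}} (h₀ : K₀ ∈ M) (h₁ : K₁ ∈ M) (h₃ : K₃ ∈ M)
    (hr₀ : ∀ z ∈ K₀, ∃ y, z = code y) (hr₁ : ∀ z ∈ K₁, ∃ y, z = code y)
    (hr₃ : ∀ z ∈ K₃, ∃ y, z = code y) (hU1 : code (fun q => q.unpair.1) ∈ M)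
    (hU2 : code (fun q => q.unpair.2) ∈ M) (hSQ : code (fun n => n ^ 2) ∈ M)
    {Q : (ℕ → ℕ) → Prop} {U : (ℕ → ℕ) → Prop}
    (hQ : ∀ y, Q y ↔ code y ∈ K₀ ∨ code y ∈ K₁) (hU : ∀ u, U u ↔ code u ∈ K₃) :
    ∃ Y ∈ M, (∀ z ∈ Y, ∃ y, z = code y) ∧ ∀ z, code z ∈ Y ↔
      ((z 0 = 0 ∧ U fun l => z (l + 1)) ∨ ∃ n, z 0 = n + 1 ∧ Q (fun l => z (l + 1)) ∧
        ∀ t', Q t' → (∃ u, U u ∧ ∀ l < n ^ 2, u (Nat.pair (z (l + 1)) l) = t' l) →
          ∃ u, U u ∧ ∀ l < n ^ 2, u (Nat.pair (t' l) l) = z (l + 1)) := by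
  have hB := hM.base
  have hom := hM.infinity
  have hn0 := hM.nat_mem 0
  obtain ⟨Rl, hRl, hRl'⟩ := exists_Rl hM
  have hins : ∀ l : ℕ, insert (nat l) (nat l) = nat (l + 1) := fun l => rfl
  generalize e1 : code (fun q => q.unpair.1) = U1 at hU1
  generalize e2 : code (fun q => q.unpair.2) = U2 at hU2
  generalize e3 : code (fun n => n ^ 2) = SQ at hSQ
  let RelF : ZFSet.{0} → ZFSet.{0} → ZFSet.{0} → Prop := fun n t t' => ∃ u ∈ K₃,
    ∀ w ∈ ZFSet.omega, pair n w ∈ SQ → ∀ l ∈ w, ∀ x ∈ ZFSet.omega, ∀ x' ∈ ZFSet.omega,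
      ∀ q ∈ ZFSet.omega, pair l x ∈ t → pair l x' ∈ t' → pair q x ∈ U1 → pair q l ∈ U2 →
        pair q x' ∈ u
  have hRel : ∀ (n : ℕ) (t t' : ℕ → ℕ), RelF (nat n) (code t) (code t') ↔
      ∃ u, U u ∧ ∀ l < n ^ 2, u (Nat.pair (t l) l) = t' l := by
    intro n t t'
    have h1 : ∀ u : ℕ → ℕ, (∀ w ∈ ZFSet.omega, pair (nat n) w ∈ SQ → ∀ l ∈ w,
        ∀ x ∈ ZFSet.omega, ∀ x' ∈ ZFSet.omega, ∀ q ∈ ZFSet.omega, pair l x ∈ code t →
          pair l x' ∈ code t' → pair q x ∈ U1 → pair q l ∈ U2 → pair q x' ∈ code u) ↔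
        ∀ l < n ^ 2, u (Nat.pair (t l) l) = t' l := by
      intro u
      simp only [all_om, ← e1, ← e2, ← e3, pair_code]
      constructor
      · intro h l hl
        have h2 := h (n ^ 2) rfl (nat l) (nat_mem_nat.2 hl) (t l) (t' l) (Nat.pair (t l) l)
          (pair_code.2 rfl) (pair_code.2 rfl) (by simp) (pair_code.2 (by simp))
        exact h2
      · rintro h w rfl
        rw [all_nat]
        intro l hl x x' q h2 h3 h4 h5
        rw [pair_code] at h2 h3 h5
        have h6 : q = Nat.pair (t l) l := by rw [← Nat.pair_unpair q, h4, h5, h2]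
        rw [h6, h l hl, h3]
    constructor
    · rintro ⟨u, hu, h⟩
      obtain ⟨u, rfl⟩ := hr₃ u hu
      exact ⟨u, (hU u).2 hu, (h1 u).1 h⟩
    · rintro ⟨u, hu, h⟩
      exact ⟨code u, (hU u).1 hu, (h1 u).2 h⟩
  let TF : ZFSet.{0} → ZFSet.{0} → Prop := fun n t => (t ∈ K₀ ∨ t ∈ K₁) ∧
    ∀ t' ∈ M, (t' ∈ K₀ ∨ t' ∈ K₁) → RelF n t t' → RelF n t' t
  have hTF : ∀ (n : ℕ) (t : ℕ → ℕ), TF (nat n) (code t) ↔ Q t ∧ ∀ t', Q t' →
      (∃ u, U u ∧ ∀ l < n ^ 2, u (Nat.pair (t l) l) = t' l) →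
        ∃ u, U u ∧ ∀ l < n ^ 2, u (Nat.pair (t' l) l) = t l := by
    intro n t
    refine and_congr (hQ t).symm ?_
    constructor
    · intro h t' ht' h1
      have h2 := (hQ t').1 ht'
      have h3 : code t' ∈ M := h2.elim (fun h => hM.trans _ h₀ _ h) fun h => hM.trans _ h₁ _ h
      exact (hRel n t' t).1 (h _ h3 h2 ((hRel n t t').2 h1))
    · intro h t' _ ht' h1
      obtain ⟨y, rfl⟩ : ∃ y, t' = code y := ht'.elim (hr₀ _) (hr₁ _)
      exact (hRel n y t).2 (h y ((hQ y).2 ht') ((hRel n t y).1 h1))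
  have h1 := hM.sep_mem (Q := fun z => (pair (nat 0) (nat 0) ∈ z ∧ ∃ u ∈ K₃, Tl z u) ∨
    ∃ n ∈ ZFSet.omega, pair (nat 0) (insert n n) ∈ z ∧ ∃ u ∈ Rl, Tl z u ∧ TF n u) (by
    simp only [Tl, TF, RelF]
    (repeat' first
      | assumption
      | exact DfnF.proj _
      | exact DfnF.const (by assumption)
      | exact DfnF.const' (by first | assumption | trivial) (by first | assumption | trivial)
      | exact Dfn.prop _
      | apply Dfn.not | apply Dfn.and | apply Dfn.or | apply Dfn.imp | apply Dfn.iff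
      | apply hB.bex | apply hB.ball | apply Dfn.ex | apply Dfn.all
      | apply Dfn.eq | apply Dfn.mem | apply hB.pair' | apply hB.insert')) hRl
  refine ⟨_, h1, fun z hz => ?_, fun z => ?_⟩
  · obtain ⟨y, -, hy⟩ := (hRl' z).1 (ZFSet.mem_sep.1 hz).1
    exact ⟨y, hy⟩
  rw [ZFSet.mem_sep, hRl', pair_code]
  have h2 : (∃ u ∈ K₃, Tl (code z) u) ↔ U fun l => z (l + 1) := by
    rw [hU]
    constructor
    · rintro ⟨u, hu, h3⟩
      obtain ⟨y, rfl⟩ := hr₃ u hu
      rw [tl_iff] at h3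
      rwa [h3] at hu
    · intro h3
      exact ⟨_, h3, tl_iff.2 rfl⟩
  have h3 : ∀ n : ℕ, code (fun l => z (l + 1)) ∈ M →
      ((∃ u ∈ Rl, Tl (code z) u ∧ TF (nat n) u) ↔ TF (nat n) (code fun l => z (l + 1))) := by
    intro n hz
    constructor
    · rintro ⟨u, hu, h3, h4⟩
      obtain ⟨y, -, rfl⟩ := (hRl' u).1 hu
      rw [tl_iff] at h3
      rwa [h3] at h4
    · intro h3
      exact ⟨_, (hRl' _).2 ⟨_, hz, rfl⟩, tl_iff.2 rfl, h3⟩
  rw [h2]
  constructor
  · rintro ⟨⟨y, hy, h4⟩, h5 | ⟨n, hn, h5, h6⟩⟩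
    · exact Or.inl h5
    · obtain ⟨n, rfl⟩ := mem_omega_iff.1 hn
      have h4' := code_injective h4
      subst h4'
      rw [hins, pair_code] at h5
      exact Or.inr ⟨n, h5, (hTF n _).1 ((h3 n (tail_mem hM hy)).1 h6)⟩
  · intro h
    have h4 : (fun l => Nat.casesOn l (z 0) (fun l => z (l + 1)) : ℕ → ℕ) = z := by
      funext l
      cases l <;> rfl
    have h5 : code (fun l => z (l + 1)) ∈ M := by
      rcases h with ⟨-, h⟩ | ⟨n, -, h, -⟩
      · exact hM.trans _ h₃ _ ((hU _).1 h)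
      · exact ((hQ _).1 h).elim (fun h => hM.trans _ h₀ _ h) fun h => hM.trans _ h₁ _ h
    have h6 : code z ∈ M := by
      rw [← h4]
      exact cons_mem hM h5 _
    refine ⟨⟨z, h6, rfl⟩, ?_⟩
    rcases h with h | ⟨n, h, h7⟩
    · exact Or.inl h
    · refine Or.inr ⟨nat n, om n, ?_, (h3 n h5).2 ((hTF n _).2 h7)⟩
      rw [hins, pair_code]
      exact h

end sets

end Pool.Agent.L5helper55.OC
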